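import Mathlib
import Pool.Agent.H963J.Defs
import Pool.Agent.W964.Wd.DnfDefs

/-!
# Predictors and learners of small degree in the labels: definitions
(helper562, for MP_cba12a_lc)
-/

set_option autoImplicit false

namespace Pool.Agent.R562.DN

open Finset Pool.Agent.H963J Pool.Agent.W964.Wd

noncomputable section

/-- The mean square error of the predictions `p X y z` of the `±1`-valued label of the fresh point
`z`, from the points `X` and the labels `y` of `N` uniform examples of the target `f`. -/
def mse {n N : ℕ} (f : (Fin n → Bool) → Bool)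
    (p : (Fin N → Fin n → Bool) → (Fin N → Bool) → (Fin n → Bool) → ℝ) : ℝ :=
  (∑ X : Fin N → Fin n → Bool, ∑ z : Fin n → Bool,
    (p X (fun t => f (X t)) z - Pool.Agent.H963J.sg (f z)) ^ 2) / (2 ^ (N * n) * 2 ^ n)

/-- A randomized learner: from the points and the labels of `N` examples and from its random choice
`ω` it computes a hypothesis, an arbitrary Boolean function. -/
structure Learner (n N : ℕ) where
  Ω : Type
  fin : Fintype Ω
  prob : Ω → ℝ
  prob_nonneg : ∀ ω, 0 ≤ prob ω
  prob_sum : ∑ ω, prob ω = 1
  out : Ω → (Fin N → Fin n → Bool) → (Fin N → Bool) → (Fin n → Bool) → Bool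

/-- The expected value of the `±1`-valued hypothesis at `z`. -/
def Learner.mean {n N : ℕ} (L : Learner n N) (X : Fin N → Fin n → Bool) (y : Fin N → Bool)
    (z : Fin n → Bool) : ℝ :=
  letI := L.fin
  ∑ ω, L.prob ω * Pool.Agent.H963J.sg (L.out ω X y z)

/-- The expected error of the hypothesis which the learner outputs for `N` uniform examples of the
target `f`. -/
def Learner.error {n N : ℕ} (L : Learner n N) (f : (Fin n → Bool) → Bool) : ℝ :=
  letI := L.fin
  ∑ ω, L.prob ω * ((∑ X : Fin N → Fin n → Bool, err f (L.out ω X fun t => f (X t))) / 2 ^ (N * n))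

/-- The mean square distance between the expected hypothesis and the functions `p`, for `N` uniform
examples of the target `f` and a uniform point `z`. -/
def Learner.dist {n N : ℕ} (L : Learner n N) (f : (Fin n → Bool) → Bool)
    (p : (Fin N → Fin n → Bool) → (Fin N → Bool) → (Fin n → Bool) → ℝ) : ℝ :=
  (∑ X : Fin N → Fin n → Bool, ∑ z : Fin n → Bool,
    (L.mean X (fun t => f (X t)) z - p X (fun t => f (X t)) z) ^ 2) / (2 ^ (N * n) * 2 ^ n)

/-- The parity of the variables in `S`. -/
def parity {n : ℕ} (S : Finset (Fin n)) (x : Fin n → Bool) : Bool :=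
  decide (Odd (S.filter fun i => x i = true).card)

/-- `p` is a polynomial of total degree at most `D` in all `±1`-valued bits of the points `X`, the
labels `y` and the fresh point `z`: a linear combination of products of at most `D` bits. -/
def BitDegree {n N : ℕ} (D : ℕ)
    (p : (Fin N → Fin n → Bool) → (Fin N → Bool) → (Fin n → Bool) → ℝ) : Prop :=
  ∃ c : Finset (Fin N) × (Fin N → Finset (Fin n)) × Finset (Fin n) → ℝ, ∀ X y z,
    p X y z = ∑ i ∈ univ.filter (fun i : Finset (Fin N) × (Fin N → Finset (Fin n)) ×
        Finset (Fin n) => i.1.card + ∑ t, (i.2.1 t).card + i.2.2.card ≤ D),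
      c i * ((∏ t ∈ i.1, Pool.Agent.H963J.sg (y t)) *
        (∏ t, ∏ j ∈ i.2.1 t, Pool.Agent.H963J.sg (X t j)) *
          ∏ j ∈ i.2.2, Pool.Agent.H963J.sg (z j))

/-- The mean square of `p` for uniform points with independent random labels. -/
def nullSq {n N : ℕ} (p : (Fin N → Fin n → Bool) → (Fin N → Bool) → (Fin n → Bool) → ℝ) : ℝ :=
  (∑ X : Fin N → Fin n → Bool, ∑ y : Fin N → Bool, ∑ z : Fin n → Bool, p X y z ^ 2) /
    (2 ^ (N * n) * 2 ^ N * 2 ^ n)

/-- The correlation of the predictions `p X y z` with the `±1`-valued label of the fresh point `z`,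
for `N` uniform examples of the target `f`. -/
def corr {n N : ℕ} (f : (Fin n → Bool) → Bool)
    (p : (Fin N → Fin n → Bool) → (Fin N → Bool) → (Fin n → Bool) → ℝ) : ℝ :=
  (∑ X : Fin N → Fin n → Bool, ∑ z : Fin n → Bool,
    p X (fun t => f (X t)) z * Pool.Agent.H963J.sg (f z)) / (2 ^ (N * n) * 2 ^ n)

end

end Pool.Agent.R562.DN
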