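import Mathlib
import Pool.Agent.R562.DN.Defs
import Pool.Agent.H963J.Tight
import Pool.Agent.H963J.Asym
import Pool.Agent.Y636.CL.Low

/-!
# Predictors of small degree in the labels: the lower bound
(helper562, for MP_cba12a_lc)
-/

set_option autoImplicit false

namespace Pool.Agent.R562.DN

open Finset Pool.Agent.H963J Pool.Agent.W964.Wd

noncomputable section

/-- the sets of `l` variables -/
abbrev Fam (n l : ℕ) := {S : Finset (Fin n) // S.card = l}

lemma card_fam (n l : ℕ) : Fintype.card (Fam n l) = n.choose l := by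
  rw [Fintype.card_subtype]
  have : (univ.filter fun S : Finset (Fin n) => S.card = l) = powersetCard l univ := by
    ext S
    simp
  rw [this, card_powersetCard, card_univ, Fintype.card_fin]

/-- the `±1`-valued label of `x` for the parity of `S` -/
def lam {n : ℕ} (S : Finset (Fin n)) (x : Fin n → Bool) : ℝ :=
  Pool.Agent.H963J.sg (Pool.Agent.Y636.CL.tg S x)

lemma lam_sq {n : ℕ} (S : Finset (Fin n)) (x : Fin n → Bool) : lam S x ^ 2 = 1 := by
  unfold lam
  rw [sq, sg_mul_self]

lemma lam_eq {n : ℕ} (S : Finset (Fin n)) (x : Fin n → Bool) :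
    lam S x = -(-1) ^ S.card * cr S x := by
  have h0 : ∀ b : Bool, Pool.Agent.TH661.LPX.sg b = -Pool.Agent.H963J.sg b := by
    intro b
    cases b <;> simp [Pool.Agent.TH661.LPX.sg, Pool.Agent.H963J.sg]
  have h1 := Pool.Agent.Y636.CL.sg_tg S x
  rw [h0] at h1
  have h2 : ∏ p ∈ S, Pool.Agent.TH661.LPX.sg (x p) = (-1) ^ S.card * cr S x := by
    rw [prod_congr rfl fun p _ => h0 (x p)]
    unfold cr
    rw [← Finset.prod_const, ← Finset.prod_mul_distrib]
    exact prod_congr rfl fun p _ => by ring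
  unfold lam
  rw [h2] at h1
  linarith

lemma lam_orth {n l : ℕ} (S S' : Fam n l) :
    E (fun x => lam S.1 x * lam S'.1 x) = if S = S' then 1 else 0 := by
  have h1 : ∀ x, lam S.1 x * lam S'.1 x = cr (symmDiff S.1 S'.1) x := by
    intro x
    rw [lam_eq, lam_eq, S.2, S'.2]
    have h2 : ((-1 : ℝ) ^ l) * (-1) ^ l = 1 := by
      rw [← mul_pow]
      norm_num
    have h3 : cr S.1 x * cr S'.1 x = cr (symmDiff S.1 S'.1) x := chi_mul x S.1 S'.1
    calc -(-1) ^ l * cr S.1 x * (-(-1) ^ l * cr S'.1 x) =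
          ((-1 : ℝ) ^ l * (-1) ^ l) * (cr S.1 x * cr S'.1 x) := by ring
      _ = _ := by rw [h2, h3, one_mul]
  rw [E_congr h1]
  split_ifs with h
  · subst h
    rw [symmDiff_self]
    have : ∀ x : Fin n → Bool, cr (⊥ : Finset (Fin n)) x = 1 := by
      intro x
      simp [cr]
    rw [E_congr this, E_const]
  · apply E_cr
    intro h2
    rw [← Finset.bot_eq_empty, symmDiff_eq_bot] at h2
    exact h (Subtype.ext h2)

lemma E_pair {α β : Type} [Fintype α] [Fintype β] (f : α → β → ℝ) :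
    E (fun p : α × β => f p.1 p.2) = E (fun x => E (fun y => f x y)) := by
  unfold E
  rw [Fintype.sum_prod_type, Fintype.card_prod, ← Finset.sum_div, div_div, Nat.cast_mul, mul_comm]

lemma E_diag {n l : ℕ} (hl : l ≤ n) (a : ℕ) (ha : 1 ≤ a) :
    E (fun S : Fam n l => E (fun S' : Fam n l => (if S = S' then (1 : ℝ) else 0) ^ a)) =
      1 / (n.choose l : ℝ) := by
  have hne : Nonempty (Fam n l) := by
    rw [← Fintype.card_pos_iff, card_fam]
    exact Nat.choose_pos hl
  have h1 : ∀ S : Fam n l, E (fun S' : Fam n l => (if S = S' then (1 : ℝ) else 0) ^ a) =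
      1 / (n.choose l : ℝ) := by
    intro S
    have h2 : ∀ S' : Fam n l, (if S = S' then (1 : ℝ) else 0) ^ a = if S = S' then (1 : ℝ) else 0 := by
      intro S'
      split_ifs
      · rw [one_pow]
      · rw [zero_pow (by omega)]
    rw [E_congr h2]
    unfold E
    rw [Finset.sum_ite_eq, if_pos (mem_univ _), card_fam]
  rw [E_congr h1, E_const]

/-- the second moment of the correlation of a product of labels with the label of `z` -/
lemma sec1 {n l N : ℕ} (hl : l ≤ n) (T : Finset (Fin N)) :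
    E (fun X : Fin N → Fin n → Bool => E (fun z : Fin n → Bool =>
      E (fun S : Fam n l => lam S.1 z * ∏ t ∈ T, lam S.1 (X t)) ^ 2)) = 1 / (n.choose l : ℝ) := by
  have h1 : ∀ (X : Fin N → Fin n → Bool) (z : Fin n → Bool),
      E (fun S : Fam n l => lam S.1 z * ∏ t ∈ T, lam S.1 (X t)) ^ 2 =
      E (fun S : Fam n l => E (fun S' : Fam n l => (∏ t ∈ T, (lam S.1 (X t) * lam S'.1 (X t))) *
        (lam S.1 z * lam S'.1 z))) := by
    intro X z
    rw [sq, E_mul_E]
    refine E_congr fun S => E_congr fun S' => ?_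
    rw [Finset.prod_mul_distrib]
    ring
  rw [E_congr fun X => E_congr fun z => h1 X z]
  rw [E_congr fun X => E_comm _, E_comm]
  rw [E_congr fun S => E_congr fun X => E_comm _]
  rw [E_congr fun S => E_comm _]
  have h2 : ∀ S S' : Fam n l, E (fun X : Fin N → Fin n → Bool => E (fun z : Fin n → Bool =>
      (∏ t ∈ T, (lam S.1 (X t) * lam S'.1 (X t))) * (lam S.1 z * lam S'.1 z))) =
      (if S = S' then (1 : ℝ) else 0) ^ (T.card + 1) := by
    intro S S'
    rw [E_congr fun X => E_mul _ _, E_mul_right]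
    rw [E_prod (fun x => lam S.1 x * lam S'.1 x) T, lam_orth, pow_succ]
  rw [E_congr fun S => E_congr fun S' => h2 S S']
  exact E_diag hl _ (by omega)

lemma sec2 {n l N : ℕ} (hl : l ≤ n) (T : Finset (Fin N)) (hT : T ≠ ∅) :
    E (fun X : Fin N → Fin n → Bool => E (fun _ : Fin n → Bool =>
      E (fun S : Fam n l => ∏ t ∈ T, lam S.1 (X t)) ^ 2)) = 1 / (n.choose l : ℝ) := by
  rw [E_congr fun X => E_const _]
  have h1 : ∀ (X : Fin N → Fin n → Bool),
      E (fun S : Fam n l => ∏ t ∈ T, lam S.1 (X t)) ^ 2 =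
      E (fun S : Fam n l => E (fun S' : Fam n l =>
        (∏ t ∈ T, (lam S.1 (X t) * lam S'.1 (X t))))) := by
    intro X
    rw [sq, E_mul_E]
    refine E_congr fun S => E_congr fun S' => ?_
    rw [Finset.prod_mul_distrib]
  rw [E_congr h1, E_comm, E_congr fun S => E_comm _]
  have h2 : ∀ S S' : Fam n l, E (fun X : Fin N → Fin n → Bool =>
      (∏ t ∈ T, (lam S.1 (X t) * lam S'.1 (X t)))) =
      (if S = S' then (1 : ℝ) else 0) ^ T.card := by
    intro S S'
    rw [E_prod (fun x => lam S.1 x * lam S'.1 x) T, lam_orth]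
  rw [E_congr fun S => E_congr fun S' => h2 S S']
  exact E_diag hl _ (Finset.card_pos.2 (Finset.nonempty_iff_ne_empty.2 hT))

lemma mse_E {n N : ℕ} (f : (Fin n → Bool) → Bool)
    (p : (Fin N → Fin n → Bool) → (Fin N → Bool) → (Fin n → Bool) → ℝ) :
    mse f p = E (fun X => E (fun z => (p X (fun t => f (X t)) z -
      Pool.Agent.H963J.sg (f z)) ^ 2)) := by
  unfold mse E
  rw [← Finset.sum_div, div_div]
  congr 1
  simp only [Fintype.card_fun, Fintype.card_bool, Fintype.card_fin]
  push_cast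
  rw [← pow_mul, mul_comm N n]
  ring

/-- **The lower bound for predictors.** -/
theorem mse_lower {n l N D : ℕ} (hl : l ≤ n)
    (p : (Fin N → Fin n → Bool) → (Fin N → Bool) → (Fin n → Bool) → ℝ)
    (hp : ∀ X z, LabelDegree D (fun y => p X y z)) :
    1 - 4 * (((N : ℝ) + 1) ^ D) ^ 2 / (n.choose l : ℝ) ≤
      E (fun S : Fam n l => mse (Pool.Agent.Y636.CL.tg S.1) p) := by
  have hne : Nonempty (Fam n l) := by
    rw [← Fintype.card_pos_iff, card_fam]
    exact Nat.choose_pos hl
  have hC : (0 : ℝ) < (n.choose l : ℝ) := by exact_mod_cast Nat.choose_pos hl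
  choose h hh using hp
  obtain ⟨M, hM⟩ : ∃ M : ℝ, M = ((smallSets N D).card : ℝ) := ⟨_, rfl⟩
  have hM1 : 1 ≤ M := by
    rw [hM]
    have : (∅ : Finset (Fin N)) ∈ smallSets N D := by simp [smallSets]
    exact_mod_cast Finset.card_pos.2 ⟨_, this⟩
  have hMle : M ≤ ((N : ℝ) + 1) ^ D := by
    rw [hM]
    exact_mod_cast card_smallSets N D
  -- for fixed points
  have key : ∀ (X : Fin N → Fin n → Bool) (z : Fin n → Bool),
      1 - 2 * ∑ T ∈ smallSets N D, E (fun S : Fam n l => lam S.1 z * ∏ t ∈ T, lam S.1 (X t)) ^ 2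
        - 4 * 1 * ∑ T ∈ smallSets N D, ∑ T' ∈ (smallSets N D).erase T,
          E (fun S : Fam n l => ∏ t ∈ symmDiff T T', lam S.1 (X t)) ^ 2 ≤
      E (fun S : Fam n l => (p X (fun t => Pool.Agent.Y636.CL.tg S.1 (X t)) z -
        Pool.Agent.H963J.sg (Pool.Agent.Y636.CL.tg S.1 z)) ^ 2) := by
    intro X z
    have h1 := mse_fixed (α := Fam n l) (J := Unit) (smallSets N D) {()}
      (fun T S => ∏ t ∈ T, lam S.1 (X t)) (fun T S => by
        rw [← Finset.prod_pow]
        exact Finset.prod_eq_one fun t _ => lam_sq _ _)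
      (fun _ S => lam S.1 z) (fun _ T => h X z T) (K := 1) (by
        rw [Finset.sum_singleton]
        exact (E_congr fun S : Fam n l => lam_sq S.1 z).trans (E_const 1)) (by norm_num)
    rw [Finset.sum_singleton, Finset.sum_singleton] at h1
    have h2 : ∀ T T' : Finset (Fin N), (fun S : Fam n l => (∏ t ∈ T, lam S.1 (X t)) *
        ∏ t ∈ T', lam S.1 (X t)) = fun S : Fam n l => ∏ t ∈ symmDiff T T', lam S.1 (X t) := by
      intro T T'
      funext S
      exact chi_mul (fun t => Pool.Agent.Y636.CL.tg S.1 (X t)) T T'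
    simp only [h2] at h1
    refine h1.trans (le_of_eq ?_)
    refine E_congr fun S => ?_
    have h3 := hh X z (fun t => Pool.Agent.Y636.CL.tg S.1 (X t))
    simp only at h3
    rw [h3]
    rfl
  have h4 : ∀ S : Fam n l, mse (Pool.Agent.Y636.CL.tg S.1) p = _ := fun S => mse_E _ p
  rw [E_congr h4, E_comm]
  rw [E_congr fun X => E_comm _]
  refine le_trans ?_ (E_mono fun X => E_mono fun z => key X z)
  rw [E_congr fun X => by rw [E_sub, E_sub, E_const, E_mul, E_mul, E_sum, E_sum]]
  rw [E_sub, E_sub, E_const, E_mul, E_mul, E_sum, E_sum]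
  rw [Finset.sum_congr rfl fun T _ => sec1 hl T]
  have h5 : ∀ T ∈ smallSets N D, E (fun X : Fin N → Fin n → Bool => E (fun _ : Fin n → Bool =>
      ∑ T' ∈ (smallSets N D).erase T,
        E (fun S : Fam n l => ∏ t ∈ symmDiff T T', lam S.1 (X t)) ^ 2)) =
      (M - 1) * (1 / (n.choose l : ℝ)) := by
    intro T hT
    rw [E_congr fun X => E_sum _ _, E_sum]
    have h6 : ∀ T' ∈ (smallSets N D).erase T, E (fun X : Fin N → Fin n → Bool =>
        E (fun _ : Fin n → Bool =>
        E (fun S : Fam n l => ∏ t ∈ symmDiff T T', lam S.1 (X t)) ^ 2)) =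
        1 / (n.choose l : ℝ) := by
      intro T' hT'
      apply sec2 hl
      intro h7
      rw [← Finset.bot_eq_empty, symmDiff_eq_bot] at h7
      exact (Finset.mem_erase.1 hT').1 h7.symm
    rw [Finset.sum_congr rfl h6, Finset.sum_const, nsmul_eq_mul, Finset.card_erase_of_mem hT,
      Nat.cast_sub (Finset.card_pos.2 ⟨T, hT⟩), ← hM, Nat.cast_one]
  rw [Finset.sum_congr rfl h5, Finset.sum_const, Finset.sum_const, nsmul_eq_mul, nsmul_eq_mul, ← hM]
  have h8 : M ^ 2 ≤ (((N : ℝ) + 1) ^ D) ^ 2 := pow_le_pow_left₀ (by linarith) hMle 2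
  have h9 : 2 * (M * (1 / (n.choose l : ℝ))) + 4 * 1 * (M * ((M - 1) * (1 / (n.choose l : ℝ)))) ≤
      4 * (((N : ℝ) + 1) ^ D) ^ 2 / (n.choose l : ℝ) := by
    rw [le_div_iff₀ hC]
    field_simp
    nlinarith
  linarith

end

end Pool.Agent.R562.DN
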