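import Mathlib
import Pool.Agent.R562.DN.Core

/-!
# Learners of small degree in the labels: the lower bound
(helper562, for MP_cba12a_lc)
-/

set_option autoImplicit false

namespace Pool.Agent.R562.DN

open Finset Pool.Agent.H963J Pool.Agent.W964.Wd

noncomputable section

lemma E_cs {α : Type} [Fintype α] (f g : α → ℝ) :
    E (fun x => f x * g x) ^ 2 ≤ E (fun x => f x ^ 2) * E (fun x => g x ^ 2) := by
  unfold E
  rw [div_pow, div_mul_div_comm, ← sq]
  exact div_le_div_of_nonneg_right (Finset.sum_mul_sq_le_sq_mul_sq univ f g) (sq_nonneg _)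

/-- The advantage of a bounded predictor which is close to predictors whose scalar multiples all
have large mean square error. -/
lemma adv_le {α : Type} [Fintype α] [Nonempty α] (q p θ : α → ℝ) {ζ η : ℝ} (hζ : 0 ≤ ζ)
    (hη : 0 ≤ η)
    (hq : ∀ x, q x ^ 2 ≤ 1) (hθ : ∀ x, θ x ^ 2 = 1) (hd : E (fun x => (q x - p x) ^ 2) ≤ ζ)
    (hp : ∀ c : ℝ, 1 - η ≤ E (fun x => (c * p x - θ x) ^ 2)) :
    E (fun x => q x * θ x) ≤ Real.sqrt ζ + (1 + Real.sqrt ζ) * Real.sqrt η := by
  obtain ⟨A, hA⟩ : ∃ A, A = E (fun x => p x ^ 2) := ⟨_, rfl⟩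
  obtain ⟨B, hB⟩ : ∃ B, B = E (fun x => p x * θ x) := ⟨_, rfl⟩
  obtain ⟨d, hdd⟩ : ∃ d, d = E (fun x => (q x - p x) ^ 2) := ⟨_, rfl⟩
  have hd0 : 0 ≤ d := by
    rw [hdd]
    exact E_nonneg fun x => sq_nonneg _
  have hA0 : 0 ≤ A := by
    rw [hA]
    exact E_nonneg fun x => sq_nonneg _
  have hsζ := Real.sqrt_nonneg ζ
  have hsη := Real.sqrt_nonneg η
  have hqq : E (fun x => q x ^ 2) ≤ 1 := (E_mono hq).trans (le_of_eq (E_const 1))
  have hθθ : E (fun x => θ x ^ 2) = 1 := (E_congr hθ).trans (E_const 1)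
  rw [← hdd] at hd
  -- B ^ 2 ≤ A η
  have h1 : B ^ 2 ≤ A * η := by
    apply sq_le_of_quad
    intro c
    have h2 := hp c
    have h3 : E (fun x => (c * p x - θ x) ^ 2) = c ^ 2 * A - 2 * c * B + 1 := by
      have h4 : ∀ x, (c * p x - θ x) ^ 2 = (c ^ 2 * p x ^ 2 - 2 * c * (p x * θ x)) + θ x ^ 2 := by
        intro x
        ring
      rw [E_congr h4, E_add, E_sub, E_mul, E_mul, hθθ, ← hA, ← hB]
    rw [h3] at h2
    linarith
  -- A ≤ (1 + √ζ) ^ 2
  have h2 : A ≤ (1 + Real.sqrt ζ) ^ 2 := by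
    obtain ⟨G, hG⟩ : ∃ G, G = E (fun x => q x * (q x - p x)) := ⟨_, rfl⟩
    have h3 : A = E (fun x => q x ^ 2) - 2 * G + d := by
      have h4 : ∀ x, p x ^ 2 = (q x ^ 2 - 2 * (q x * (q x - p x))) + (q x - p x) ^ 2 := by
        intro x
        ring
      rw [hA, E_congr h4, E_add, E_sub, E_mul, ← hG, ← hdd]
    have h4 : G ^ 2 ≤ ζ := by
      have := E_cs q (fun x => q x - p x)
      rw [← hG, ← hdd] at this
      nlinarith
    have h5 : -Real.sqrt ζ ≤ G := by
      have := Real.abs_le_sqrt h4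
      linarith [(abs_le.1 this).1]
    have h6 := Real.sq_sqrt hζ
    nlinarith
  have h3 : B ≤ (1 + Real.sqrt ζ) * Real.sqrt η := by
    have h4 : B ^ 2 ≤ ((1 + Real.sqrt ζ) * Real.sqrt η) ^ 2 := by
      rw [mul_pow, Real.sq_sqrt hη]
      exact h1.trans (mul_le_mul_of_nonneg_right h2 hη)
    exact le_trans (le_abs_self B) (abs_le_of_sq_le_sq h4 (by positivity))
  have h4 : E (fun x => (q x - p x) * θ x) ≤ Real.sqrt ζ := by
    have h5 := E_cs (fun x => q x - p x) θ
    rw [hθθ, ← hdd, mul_one] at h5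
    exact (le_abs_self _).trans (Real.abs_le_sqrt (h5.trans hd))
  have h5 : E (fun x => q x * θ x) = E (fun x => (q x - p x) * θ x) + B := by
    rw [hB, ← E_add]
    exact E_congr fun x => by ring
  rw [h5]
  linarith

lemma err_sg {n : ℕ} (f h : (Fin n → Bool) → Bool) :
    E (fun z => Pool.Agent.H963J.sg (h z) * Pool.Agent.H963J.sg (f z)) = 1 - 2 * err f h := by
  have h3 : ∀ x : Fin n → Bool, Pool.Agent.H963J.sg (h x) * Pool.Agent.H963J.sg (f x) =
        1 - 2 * (if h x ≠ f x then (1 : ℝ) else 0) := by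
    intro x
    unfold Pool.Agent.H963J.sg
    cases h x <;> cases f x <;> simp <;> norm_num
  rw [E_congr h3]
  unfold E err
  have h2n : (2 : ℝ) ^ n ≠ 0 := by positivity
  rw [sum_sub_distrib, ← mul_sum, sum_boole, sum_const, card_univ, Fintype.card_fun,
    Fintype.card_fin, Fintype.card_bool, nsmul_eq_mul, mul_one]
  push_cast
  field_simp

lemma Learner.mean_sq {n N : ℕ} (L : Learner n N) (X : Fin N → Fin n → Bool) (y : Fin N → Bool)
    (z : Fin n → Bool) : L.mean X y z ^ 2 ≤ 1 := by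
  letI := L.fin
  have h1 : |L.mean X y z| ≤ 1 := by
    unfold Learner.mean
    refine (Finset.abs_sum_le_sum_abs _ _).trans ?_
    rw [← L.prob_sum]
    refine Finset.sum_le_sum fun ω _ => ?_
    rw [abs_mul, abs_sg, mul_one, abs_of_nonneg (L.prob_nonneg ω)]
  have := abs_le.1 h1
  nlinarith

/-- the expected error in terms of the expected hypothesis -/
lemma Learner.mean_error {n N : ℕ} (L : Learner n N) (f : (Fin n → Bool) → Bool) :
    E (fun X : Fin N → Fin n → Bool => E (fun z => L.mean X (fun t => f (X t)) z *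
      Pool.Agent.H963J.sg (f z))) = 1 - 2 * L.error f := by
  letI := L.fin
  have h1 : ∀ X : Fin N → Fin n → Bool, E (fun z => L.mean X (fun t => f (X t)) z *
      Pool.Agent.H963J.sg (f z)) =
      ∑ ω, L.prob ω * (1 - 2 * err f (L.out ω X fun t => f (X t))) := by
    intro X
    have h2 : ∀ z, L.mean X (fun t => f (X t)) z * Pool.Agent.H963J.sg (f z) =
        ∑ ω ∈ univ, L.prob ω * (Pool.Agent.H963J.sg (L.out ω X (fun t => f (X t)) z) *
          Pool.Agent.H963J.sg (f z)) := by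
      intro z
      unfold Learner.mean
      rw [Finset.sum_mul]
      exact Finset.sum_congr rfl fun ω _ => by ring
    rw [E_congr h2, E_sum]
    refine Finset.sum_congr rfl fun ω _ => ?_
    rw [E_mul, err_sg]
  rw [E_congr h1, E_sum]
  have h3 : ∀ ω, E (fun X : Fin N → Fin n → Bool =>
      L.prob ω * (1 - 2 * err f (L.out ω X fun t => f (X t)))) =
      L.prob ω - 2 * (L.prob ω * ((∑ X : Fin N → Fin n → Bool,
        err f (L.out ω X fun t => f (X t))) / 2 ^ (N * n))) := by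
    intro ω
    rw [E_mul, E_sub, E_const, E_mul]
    have h4 : E (fun X : Fin N → Fin n → Bool => err f (L.out ω X fun t => f (X t))) =
        (∑ X : Fin N → Fin n → Bool, err f (L.out ω X fun t => f (X t))) / 2 ^ (N * n) := by
      unfold E
      congr 1
      simp only [Fintype.card_fun, Fintype.card_bool, Fintype.card_fin]
      push_cast
      rw [← pow_mul, mul_comm N n]
    rw [h4]
    ring
  rw [Finset.sum_congr rfl fun ω _ => h3 ω, Finset.sum_sub_distrib, L.prob_sum, ← Finset.mul_sum]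
  rfl

lemma dist_E {n N : ℕ} (L : Learner n N) (f : (Fin n → Bool) → Bool)
    (p : (Fin N → Fin n → Bool) → (Fin N → Bool) → (Fin n → Bool) → ℝ) :
    L.dist f p = E (fun X => E (fun z => (L.mean X (fun t => f (X t)) z -
      p X (fun t => f (X t)) z) ^ 2)) := by
  unfold Learner.dist E
  rw [← Finset.sum_div, div_div]
  congr 1
  simp only [Fintype.card_fun, Fintype.card_bool, Fintype.card_fin]
  push_cast
  rw [← pow_mul, mul_comm N n]
  ring

/-- **The lower bound for learners.** -/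
theorem learner_lower {n l N D : ℕ} (hl : l ≤ n) (L : Learner n N)
    (p : (Fin N → Fin n → Bool) → (Fin N → Bool) → (Fin n → Bool) → ℝ)
    (hp : ∀ X z, LabelDegree D (fun y => p X y z)) {ζ : ℝ} (hζ : 0 ≤ ζ)
    (hd : E (fun S : Fam n l => L.dist (Pool.Agent.Y636.CL.tg S.1) p) ≤ ζ) :
    1 / 2 - Real.sqrt ζ / 2 -
        (1 + Real.sqrt ζ) * (((N : ℝ) + 1) ^ D / Real.sqrt (n.choose l : ℝ)) ≤
      E (fun S : Fam n l => L.error (Pool.Agent.Y636.CL.tg S.1)) := by
  have hne : Nonempty (Fam n l) := by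
    rw [← Fintype.card_pos_iff, card_fam]
    exact Nat.choose_pos hl
  have hC : (0 : ℝ) < (n.choose l : ℝ) := by exact_mod_cast Nat.choose_pos hl
  have h1 := adv_le (α := Fam n l × (Fin N → Fin n → Bool) × (Fin n → Bool))
    (fun w => L.mean w.2.1 (fun t => Pool.Agent.Y636.CL.tg w.1.1 (w.2.1 t)) w.2.2)
    (fun w => p w.2.1 (fun t => Pool.Agent.Y636.CL.tg w.1.1 (w.2.1 t)) w.2.2)
    (fun w => Pool.Agent.H963J.sg (Pool.Agent.Y636.CL.tg w.1.1 w.2.2)) (ζ := ζ)
    (η := 4 * (((N : ℝ) + 1) ^ D) ^ 2 / (n.choose l : ℝ)) hζ (by positivity)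
    (fun w => L.mean_sq _ _ _) (fun w => by rw [sq, sg_mul_self])
    (by
      rw [E_pair (fun (S : Fam n l) (v : (Fin N → Fin n → Bool) × (Fin n → Bool)) =>
        (L.mean v.1 (fun t => Pool.Agent.Y636.CL.tg S.1 (v.1 t)) v.2 -
          p v.1 (fun t => Pool.Agent.Y636.CL.tg S.1 (v.1 t)) v.2) ^ 2)]
      refine le_trans (le_of_eq ?_) hd
      refine E_congr fun S => ?_
      rw [dist_E]
      exact E_pair (fun (X : Fin N → Fin n → Bool) (z : Fin n → Bool) =>
        (L.mean X (fun t => Pool.Agent.Y636.CL.tg S.1 (X t)) z -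
          p X (fun t => Pool.Agent.Y636.CL.tg S.1 (X t)) z) ^ 2))
    (by
      intro c
      have h2 := mse_lower (D := D) hl (fun X y z => c * p X y z) (fun X z => by
        obtain ⟨h, hh⟩ := hp X z
        refine ⟨fun T => c * h T, fun y => ?_⟩
        have := hh y
        beta_reduce at this ⊢
        rw [this, Finset.mul_sum]
        exact Finset.sum_congr rfl fun T _ => by ring)
      refine h2.trans (le_of_eq ?_)
      rw [E_pair (fun (S : Fam n l) (v : (Fin N → Fin n → Bool) × (Fin n → Bool)) =>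
        (c * p v.1 (fun t => Pool.Agent.Y636.CL.tg S.1 (v.1 t)) v.2 -
          Pool.Agent.H963J.sg (Pool.Agent.Y636.CL.tg S.1 v.2)) ^ 2)]
      refine E_congr fun S => ?_
      rw [mse_E]
      exact (E_pair (fun (X : Fin N → Fin n → Bool) (z : Fin n → Bool) =>
        (c * p X (fun t => Pool.Agent.Y636.CL.tg S.1 (X t)) z -
          Pool.Agent.H963J.sg (Pool.Agent.Y636.CL.tg S.1 z)) ^ 2)).symm)
  have h2 : E (fun w : Fam n l × (Fin N → Fin n → Bool) × (Fin n → Bool) =>
      L.mean w.2.1 (fun t => Pool.Agent.Y636.CL.tg w.1.1 (w.2.1 t)) w.2.2 *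
        Pool.Agent.H963J.sg (Pool.Agent.Y636.CL.tg w.1.1 w.2.2)) =
      1 - 2 * E (fun S : Fam n l => L.error (Pool.Agent.Y636.CL.tg S.1)) := by
    rw [E_pair (fun (S : Fam n l) (v : (Fin N → Fin n → Bool) × (Fin n → Bool)) =>
      L.mean v.1 (fun t => Pool.Agent.Y636.CL.tg S.1 (v.1 t)) v.2 *
        Pool.Agent.H963J.sg (Pool.Agent.Y636.CL.tg S.1 v.2))]
    have h3 : ∀ S : Fam n l, E (fun v : (Fin N → Fin n → Bool) × (Fin n → Bool) =>
        L.mean v.1 (fun t => Pool.Agent.Y636.CL.tg S.1 (v.1 t)) v.2 *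
          Pool.Agent.H963J.sg (Pool.Agent.Y636.CL.tg S.1 v.2)) =
        1 - 2 * L.error (Pool.Agent.Y636.CL.tg S.1) := by
      intro S
      rw [← L.mean_error]
      exact E_pair (fun (X : Fin N → Fin n → Bool) (z : Fin n → Bool) =>
        L.mean X (fun t => Pool.Agent.Y636.CL.tg S.1 (X t)) z *
          Pool.Agent.H963J.sg (Pool.Agent.Y636.CL.tg S.1 z))
    rw [E_congr h3, E_sub, E_const, E_mul]
  rw [h2] at h1
  have h3 : Real.sqrt (4 * (((N : ℝ) + 1) ^ D) ^ 2 / (n.choose l : ℝ)) =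
      2 * (((N : ℝ) + 1) ^ D / Real.sqrt (n.choose l : ℝ)) := by
    rw [Real.sqrt_div (by positivity)]
    have h4 : (4 : ℝ) * (((N : ℝ) + 1) ^ D) ^ 2 = (2 * ((N : ℝ) + 1) ^ D) ^ 2 := by ring
    rw [h4, Real.sqrt_sq (by positivity)]
    ring
  rw [h3] at h1
  linarith

end

end Pool.Agent.R562.DN
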