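import Mathlib
import Pool.Agent.R562.DN.Learn

/-!
# Predictors of small degree in the labels: the upper bound for parities
(helper562, for MP_cba12a_lc)
-/

set_option autoImplicit false

namespace Pool.Agent.R562.DN

open Finset Pool.Agent.H963J Pool.Agent.W964.Wd

noncomputable section

/-- The mean over the sets `T` of `D` examples of the products of the agreements with the parity
of `R`, times the parity of `R` at `z`, summed over the sets `R` of `l` variables. -/
def pred (n l N D : ℕ) (X : Fin N → Fin n → Bool) (y : Fin N → Bool) (z : Fin n → Bool) : ℝ :=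
  (∑ R ∈ powersetCard l (univ : Finset (Fin n)), ∑ T ∈ powersetCard D (univ : Finset (Fin N)),
    (∏ t ∈ T, (Pool.Agent.H963J.sg (y t) * lam R (X t))) * lam R z) / (N.choose D : ℝ)

lemma pred_degree (n l N D : ℕ) (X : Fin N → Fin n → Bool) (z : Fin n → Bool) :
    LabelDegree D (fun y => pred n l N D X y z) := by
  refine ⟨fun T => if T.card = D then
    (∑ R ∈ powersetCard l (univ : Finset (Fin n)), (∏ t ∈ T, lam R (X t)) * lam R z) /
      (N.choose D : ℝ) else 0, fun y => ?_⟩
  unfold pred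
  beta_reduce
  rw [Finset.sum_comm, Finset.sum_div]
  have h1 : powersetCard D (univ : Finset (Fin N)) =
      (univ.filter (fun T : Finset (Fin N) => T.card ≤ D)).filter (fun T => T.card = D) := by
    ext T
    simp only [mem_powersetCard, mem_filter, mem_univ, true_and]
    constructor
    · rintro ⟨_, h⟩
      exact ⟨h.le, h⟩
    · rintro ⟨_, h⟩
      exact ⟨subset_univ _, h⟩
  rw [h1, Finset.sum_filter]
  refine Finset.sum_congr rfl fun T _ => ?_
  split_ifs
  · rw [div_mul_eq_mul_div, Finset.sum_mul]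
    congr 1
    refine Finset.sum_congr rfl fun R _ => ?_
    rw [Finset.prod_mul_distrib]
    ring
  · rw [zero_mul]

lemma lam_mul {n l : ℕ} {R S : Finset (Fin n)} (hR : R.card = l) (hS : S.card = l)
    (x : Fin n → Bool) : lam S x * lam R x = cr (symmDiff R S) x := by
  rw [lam_eq, lam_eq, hR, hS]
  have h2 : ((-1 : ℝ) ^ l) * (-1) ^ l = 1 := by
    rw [← mul_pow]
    norm_num
  have h3 : cr R x * cr S x = cr (symmDiff R S) x := chi_mul x R S
  calc -(-1) ^ l * cr S x * (-(-1) ^ l * cr R x) =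
        ((-1 : ℝ) ^ l * (-1) ^ l) * (cr R x * cr S x) := by ring
    _ = _ := by rw [h2, h3, one_mul]

/-- **The mean square error of the predictor for parities.** -/
theorem pred_mse {n l N D : ℕ} (hD : 1 ≤ D) (hDN : D ≤ N) {S : Finset (Fin n)}
    (hS : S.card = l) :
    mse (Pool.Agent.Y636.CL.tg S) (pred n l N D) =
      ((n.choose l : ℝ) - 1) / (N.choose D : ℝ) := by
  obtain ⟨C, hC⟩ : ∃ C : ℝ, C = (N.choose D : ℝ) := ⟨_, rfl⟩
  have hC0 : 0 < C := by
    rw [hC]
    exact_mod_cast Nat.choose_pos hDN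
  obtain ⟨PT, hPT⟩ : ∃ PT : Finset (Finset (Fin N)), PT = powersetCard D univ := ⟨_, rfl⟩
  have hPTc : (PT.card : ℝ) = C := by
    rw [hPT, hC, card_powersetCard, card_univ, Fintype.card_fin]
  obtain ⟨PR, hPR⟩ : ∃ PR : Finset (Finset (Fin n)), PR = powersetCard l univ := ⟨_, rfl⟩
  have hSPR : S ∈ PR := by
    rw [hPR, mem_powersetCard]
    exact ⟨subset_univ _, hS⟩
  have hPRc : ∀ R ∈ PR, R.card = l := by
    intro R hR
    rw [hPR, mem_powersetCard] at hR
    exact hR.2
  have herr : ∀ (w : (Fin N → Fin n → Bool) × (Fin n → Bool)),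
      pred n l N D w.1 (fun t => Pool.Agent.Y636.CL.tg S (w.1 t)) w.2 -
        Pool.Agent.H963J.sg (Pool.Agent.Y636.CL.tg S w.2) =
      C⁻¹ * ∑ q ∈ (PR.erase S) ×ˢ PT,
        (∏ t ∈ q.2, cr (symmDiff q.1 S) (w.1 t)) * lam q.1 w.2 := by
    intro w
    have e1 : ∀ R ∈ PR, ∀ T : Finset (Fin N),
        (∏ t ∈ T, (Pool.Agent.H963J.sg (Pool.Agent.Y636.CL.tg S (w.1 t)) * lam R (w.1 t))) *
          lam R w.2 =
        (∏ t ∈ T, cr (symmDiff R S) (w.1 t)) * lam R w.2 := by
      intro R hR T
      congr 1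
      exact Finset.prod_congr rfl fun t _ => lam_mul (hPRc R hR) hS _
    unfold pred
    rw [← hPR, ← hPT, ← hC, Finset.sum_product, ← Finset.add_sum_erase _ _ hSPR]
    have e2 : ∑ T ∈ PT, (∏ t ∈ T, (Pool.Agent.H963J.sg (Pool.Agent.Y636.CL.tg S (w.1 t)) *
        lam S (w.1 t))) * lam S w.2 = C * lam S w.2 := by
      rw [Finset.sum_congr rfl fun T _ => e1 S hSPR T, ← Finset.sum_mul, ← hPTc]
      congr 1
      have e3 : ∀ T ∈ PT, ∏ t ∈ T, cr (symmDiff S S) (w.1 t) = 1 := by
        intro T _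
        rw [symmDiff_self]
        apply Finset.prod_eq_one
        intro t _
        unfold cr
        simp
      rw [Finset.sum_congr rfl e3, Finset.sum_const, nsmul_eq_mul, mul_one]
    rw [e2, Finset.sum_congr rfl fun R hR => Finset.sum_congr rfl fun T _ =>
      e1 R (Finset.mem_of_mem_erase hR) T]
    have e4 : Pool.Agent.H963J.sg (Pool.Agent.Y636.CL.tg S w.2) = lam S w.2 := rfl
    rw [e4]
    field_simp
    ring
  rw [mse_E, ← E_pair (fun (X : Fin N → Fin n → Bool) (z : Fin n → Bool) =>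
    (pred n l N D X (fun t => Pool.Agent.Y636.CL.tg S (X t)) z -
      Pool.Agent.H963J.sg (Pool.Agent.Y636.CL.tg S z)) ^ 2),
    E_congr (fun w => by rw [herr w, mul_pow]), E_mul,
    E_sum_orth ((PR.erase S) ×ˢ PT)
      (fun (q : Finset (Fin n) × Finset (Fin N)) (w : (Fin N → Fin n → Bool) × (Fin n → Bool)) =>
        (∏ t ∈ q.2, cr (symmDiff q.1 S) (w.1 t)) * lam q.1 w.2)]
  · rw [card_product, card_erase_of_mem hSPR]
    have h3 : 1 ≤ PR.card := Finset.card_pos.2 ⟨S, hSPR⟩
    push_cast [Nat.cast_sub h3]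
    rw [hPTc, hPR, card_powersetCard, card_univ, Fintype.card_fin, ← hC]
    field_simp
  · intro q _ w
    rw [mul_pow, lam_sq, mul_one, ← Finset.prod_pow]
    apply Finset.prod_eq_one
    intro t _
    rw [cr_eq]
    exact chi_sq _ _
  · intro q hq q' hq' hne
    rw [Finset.mem_product] at hq hq'
    have hRc : q.1.card = l := hPRc _ (Finset.mem_of_mem_erase hq.1)
    have hRc' : q'.1.card = l := hPRc _ (Finset.mem_of_mem_erase hq'.1)
    have e1 : E (fun w : (Fin N → Fin n → Bool) × (Fin n → Bool) =>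
        (∏ t ∈ q.2, cr (symmDiff q.1 S) (w.1 t)) * lam q.1 w.2 *
          ((∏ t ∈ q'.2, cr (symmDiff q'.1 S) (w.1 t)) * lam q'.1 w.2)) =
        E (fun X : Fin N → Fin n → Bool => (∏ t ∈ q.2, cr (symmDiff q.1 S) (X t)) *
          (∏ t ∈ q'.2, cr (symmDiff q'.1 S) (X t))) *
        E (fun z => lam q.1 z * lam q'.1 z) := by
      rw [E_mul_E]
      refine Eq.trans ?_ (E_pair (fun (X : Fin N → Fin n → Bool) (z : Fin n → Bool) =>
        (∏ t ∈ q.2, cr (symmDiff q.1 S) (X t)) * (∏ t ∈ q'.2, cr (symmDiff q'.1 S) (X t)) *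
          (lam q.1 z * lam q'.1 z)))
      exact E_congr fun w => by ring
    rw [e1]
    by_cases h : q.1 = q'.1
    · have hne2 : q.2 ≠ q'.2 := fun h2 => hne (Prod.ext h h2)
      have hR : symmDiff q.1 S ≠ ∅ := by
        intro h2
        rw [← Finset.bot_eq_empty, symmDiff_eq_bot] at h2
        exact (Finset.mem_erase.1 hq.1).1 h2
      rw [← h, E_orth _ hR hR, zero_mul]
      · intro h2
        exact hne2 (Prod.mk.inj h2).1
      · intro h2
        have := hq.2
        rw [hPT, mem_powersetCard, h2, card_empty] at this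
        omega
    · have h2 := lam_orth (⟨q.1, hRc⟩ : Fam n l) ⟨q'.1, hRc'⟩
      rw [if_neg (fun h3 => h (Subtype.ext_iff.1 h3))] at h2
      rw [h2, mul_zero]

/-- The learner which rounds the predictor. -/
def roundL (n l N D : ℕ) : Learner n N where
  Ω := Unit
  fin := inferInstance
  prob := fun _ => 1
  prob_nonneg := fun _ => zero_le_one
  prob_sum := by simp
  out := fun _ X y z => decide (0 < pred n l N D X y z)

lemma roundL_mean (n l N D : ℕ) (X : Fin N → Fin n → Bool) (y : Fin N → Bool) (z : Fin n → Bool) :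
    (roundL n l N D).mean X y z = Pool.Agent.H963J.sg (decide (0 < pred n l N D X y z)) := by
  unfold Learner.mean roundL
  simp

lemma round_le (p : ℝ) (b : Bool) :
    (Pool.Agent.H963J.sg (decide (0 < p)) - p) ^ 2 ≤ (p - Pool.Agent.H963J.sg b) ^ 2 := by
  unfold Pool.Agent.H963J.sg
  by_cases h : 0 < p <;> cases b <;> simp [h] <;> nlinarith

lemma round_err (p : ℝ) (b : Bool) :
    (1 - Pool.Agent.H963J.sg (decide (0 < p)) * Pool.Agent.H963J.sg b) / 2 ≤
      (p - Pool.Agent.H963J.sg b) ^ 2 := by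
  have ht : Pool.Agent.H963J.sg true = 1 := by simp [Pool.Agent.H963J.sg]
  have hf : Pool.Agent.H963J.sg false = -1 := by simp [Pool.Agent.H963J.sg]
  by_cases h : 0 < p
  · rw [decide_eq_true h]
    cases b <;> simp only [ht, hf] <;> nlinarith [sq_nonneg (p - 1)]
  · rw [decide_eq_false h]
    cases b <;> simp only [ht, hf] <;> nlinarith [sq_nonneg (p + 1)]

theorem roundL_dist {n l N D : ℕ} (hD : 1 ≤ D) (hDN : D ≤ N) {S : Finset (Fin n)}
    (hS : S.card = l) :
    (roundL n l N D).dist (Pool.Agent.Y636.CL.tg S) (pred n l N D) ≤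
      ((n.choose l : ℝ) - 1) / (N.choose D : ℝ) := by
  rw [← pred_mse hD hDN hS, dist_E, mse_E]
  refine E_mono fun X => E_mono fun z => ?_
  rw [roundL_mean]
  exact round_le _ _

theorem roundL_error {n l N D : ℕ} (hD : 1 ≤ D) (hDN : D ≤ N) {S : Finset (Fin n)}
    (hS : S.card = l) :
    (roundL n l N D).error (Pool.Agent.Y636.CL.tg S) ≤
      ((n.choose l : ℝ) - 1) / (N.choose D : ℝ) := by
  have h1 := (roundL n l N D).mean_error (Pool.Agent.Y636.CL.tg S)
  have h2 : (roundL n l N D).error (Pool.Agent.Y636.CL.tg S) =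
      E (fun X : Fin N → Fin n → Bool => E (fun z =>
        (1 - (roundL n l N D).mean X (fun t => Pool.Agent.Y636.CL.tg S (X t)) z *
          Pool.Agent.H963J.sg (Pool.Agent.Y636.CL.tg S z)) / 2)) := by
    have h3 : ∀ (X : Fin N → Fin n → Bool) (z : Fin n → Bool),
        (1 - (roundL n l N D).mean X (fun t => Pool.Agent.Y636.CL.tg S (X t)) z *
          Pool.Agent.H963J.sg (Pool.Agent.Y636.CL.tg S z)) / 2 =
        1 / 2 - (1 / 2) * ((roundL n l N D).mean X (fun t => Pool.Agent.Y636.CL.tg S (X t)) z *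
          Pool.Agent.H963J.sg (Pool.Agent.Y636.CL.tg S z)) := by
      intro X z
      ring
    rw [E_congr fun X => E_congr fun z => h3 X z, E_congr fun X => by rw [E_sub, E_const, E_mul],
      E_sub, E_const, E_mul, h1]
    ring
  rw [h2, ← pred_mse hD hDN hS, mse_E]
  refine E_mono fun X => E_mono fun z => ?_
  rw [roundL_mean]
  exact round_err _ _

end

end Pool.Agent.R562.DN
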