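import Mathlib
import Pool.Agent.R562.DN.Tight

/-!
# Parities as DNF formulas, and the number of parities
(helper562, for MP_cba12a_lc)
-/

set_option autoImplicit false

namespace Pool.Agent.R562.DN

open Finset Pool.Agent.H963J Pool.Agent.W964.Wd

noncomputable section

lemma tg_eq {n : ℕ} (S : Finset (Fin n)) : Pool.Agent.Y636.CL.tg S = parity S := by
  funext x
  have h1 := Pool.Agent.Y636.CL.sg_tg S x
  have h2 : ∏ p ∈ S, Pool.Agent.TH661.LPX.sg (x p) =
      (-1) ^ (S.filter fun i => x i = true).card := by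
    have h3 : ∀ p ∈ S, Pool.Agent.TH661.LPX.sg (x p) = if x p = true then (-1 : ℝ) else 1 :=
      fun p _ => rfl
    rw [prod_congr rfl h3, Finset.prod_ite, Finset.prod_const, Finset.prod_const_one, mul_one]
  rw [h2] at h1
  unfold parity
  by_cases h : Odd (S.filter fun i => x i = true).card
  · rw [h.neg_one_pow] at h1
    rw [decide_eq_true h]
    unfold Pool.Agent.TH661.LPX.sg at h1
    by_contra h4
    rw [if_neg h4] at h1
    norm_num at h1
  · rw [(Nat.not_odd_iff_even.1 h).neg_one_pow] at h1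
    rw [decide_eq_false h]
    unfold Pool.Agent.TH661.LPX.sg at h1
    by_contra h4
    rw [Bool.not_eq_false] at h4
    rw [if_pos h4] at h1
    norm_num at h1

lemma parity_dnf {n l s : ℕ} {S : Finset (Fin n)} (hS : S.card = l) (hl : 1 ≤ l)
    (hs : 2 ^ (l - 1) + 1 ≤ s) : IsDnf s (parity S) := by
  rw [← tg_eq]
  exact Pool.Agent.Y636.CL.tg_dnf hS hl hs

/-- The parities of about `log₂ s` variables. -/
lemma choose_ge {s n : ℕ} (hs : 2 ≤ s) (hsn : Real.logb 2 s + 1 ≤ Real.sqrt n) :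
    ∃ l : ℕ, 1 ≤ l ∧ l ≤ n ∧ 2 ^ (l - 1) + 1 ≤ s ∧ Real.logb 2 s ≤ l ∧
      (n : ℝ) ^ (Real.logb 2 s / 2) ≤ (n.choose l : ℝ) := by
  obtain ⟨l, hl⟩ : ∃ l, l = Nat.log 2 (s - 1) + 1 := ⟨_, rfl⟩
  have hsR : (0 : ℝ) < s := by exact_mod_cast (by omega : 0 < s)
  have hL0 : 0 ≤ Real.logb 2 s := Real.logb_nonneg (by norm_num) (by exact_mod_cast (by omega :
    1 ≤ s))
  have hsq1 : 1 ≤ Real.sqrt n := by linarith
  have hn1 : (1 : ℝ) ≤ n := by
    have := Real.sq_sqrt (Nat.cast_nonneg (α := ℝ) n)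
    nlinarith
  have h1 : 2 ^ (l - 1) ≤ s - 1 := by
    rw [hl, Nat.add_sub_cancel]
    exact Nat.pow_log_le_self 2 (by omega)
  have h2 : s ≤ 2 ^ l := by
    have : s - 1 < 2 ^ (Nat.log 2 (s - 1) + 1) := Nat.lt_pow_succ_log_self (by norm_num) _
    rw [← hl] at this
    omega
  have h3 : Real.logb 2 s ≤ l := by
    rw [Real.logb_le_iff_le_rpow (by norm_num) hsR, Real.rpow_natCast]
    exact_mod_cast h2
  have hl1 : 1 ≤ l := by omega
  have h4 : (l : ℝ) ≤ Real.logb 2 s + 1 := by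
    have h5 : ((l - 1 : ℕ) : ℝ) ≤ Real.logb 2 s := by
      rw [Real.le_logb_iff_rpow_le (by norm_num) hsR, Real.rpow_natCast]
      exact_mod_cast h1.trans (Nat.sub_le _ _)
    rw [Nat.cast_sub hl1, Nat.cast_one] at h5
    linarith
  have h5 : (l : ℝ) ≤ Real.sqrt n := h4.trans hsn
  have h6 : Real.sqrt n ≤ n := by
    have := Real.sq_sqrt (Nat.cast_nonneg (α := ℝ) n)
    nlinarith
  have hln : l ≤ n := by exact_mod_cast h5.trans h6
  have hl0 : (0 : ℝ) < l := by exact_mod_cast hl1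
  refine ⟨l, hl1, hln, by omega, h3, ?_⟩
  refine le_trans ?_ (Pool.Agent.Y636.CL.pow_le_choose_real l n hln hl1)
  have h7 : Real.sqrt n ≤ (n : ℝ) / l := by
    rw [le_div_iff₀ hl0]
    calc Real.sqrt n * l ≤ Real.sqrt n * Real.sqrt n :=
          mul_le_mul_of_nonneg_left h5 (Real.sqrt_nonneg _)
      _ = n := Real.mul_self_sqrt (Nat.cast_nonneg _)
  calc (n : ℝ) ^ (Real.logb 2 s / 2) = (Real.sqrt n) ^ (Real.logb 2 s) := by
        rw [Real.sqrt_eq_rpow, ← Real.rpow_mul (Nat.cast_nonneg _)]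
        congr 1
        ring
    _ ≤ (Real.sqrt n) ^ (l : ℝ) := Real.rpow_le_rpow_of_exponent_le hsq1 h3
    _ = (Real.sqrt n) ^ l := Real.rpow_natCast _ _
    _ ≤ ((n : ℝ) / l) ^ l := pow_le_pow_left₀ (Real.sqrt_nonneg _) h7 l

/-- **Statistics of few labels.** -/
theorem label_main {n s N D : ℕ} (hs : 2 ≤ s) (hsn : Real.logb 2 s + 1 ≤ Real.sqrt n)
    (hND : ((N : ℝ) + 1) ^ D ≤ (n : ℝ) ^ (Real.logb 2 s / 8))
    (p : (Fin N → Fin n → Bool) → (Fin N → Bool) → (Fin n → Bool) → ℝ)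
    (hp : ∀ X z, LabelDegree D (fun y => p X y z)) :
    (∃ f : (Fin n → Bool) → Bool, IsDnf s f ∧
      1 - 4 * (n : ℝ) ^ (-(Real.logb 2 s / 4)) ≤ mse f p) ∧
    ∀ (L : Learner n N) (ζ : ℝ), 0 ≤ ζ →
      (∀ f : (Fin n → Bool) → Bool, IsDnf s f → L.dist f p ≤ ζ) →
      ∃ f : (Fin n → Bool) → Bool, IsDnf s f ∧
        1 / 2 - Real.sqrt ζ / 2 - (1 + Real.sqrt ζ) * (n : ℝ) ^ (-(Real.logb 2 s / 8)) ≤
          L.error f := by
  obtain ⟨l, hl1, hln, hsl, hLl, hC⟩ := choose_ge hs hsn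
  have hne : Nonempty (Fam n l) := by
    rw [← Fintype.card_pos_iff, card_fam]
    exact Nat.choose_pos hln
  have hn0 : (0 : ℝ) < n := by exact_mod_cast (by omega : 0 < n)
  have hC0 : (0 : ℝ) < (n.choose l : ℝ) := by exact_mod_cast Nat.choose_pos hln
  have hP : 0 < (n : ℝ) ^ (Real.logb 2 s / 8) := by positivity
  constructor
  · have h1 := mse_lower (D := D) hln p hp
    obtain ⟨S, hS⟩ := E_exists_ge h1
    refine ⟨parity S.1, parity_dnf S.2 hl1 hsl, ?_⟩
    rw [← tg_eq]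
    refine le_trans ?_ hS
    have h2 : (((N : ℝ) + 1) ^ D) ^ 2 / (n.choose l : ℝ) ≤
        (n : ℝ) ^ (-(Real.logb 2 s / 4)) := by
      rw [div_le_iff₀ hC0]
      calc (((N : ℝ) + 1) ^ D) ^ 2 ≤ ((n : ℝ) ^ (Real.logb 2 s / 8)) ^ 2 :=
            pow_le_pow_left₀ (by positivity) hND 2
        _ = (n : ℝ) ^ (-(Real.logb 2 s / 4)) * (n : ℝ) ^ (Real.logb 2 s / 2) := by
            rw [← Real.rpow_natCast, ← Real.rpow_mul hn0.le, ← Real.rpow_add hn0]
            congr 1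
            push_cast
            ring
        _ ≤ _ := mul_le_mul_of_nonneg_left hC (by positivity)
    have h3 : 4 * (((N : ℝ) + 1) ^ D) ^ 2 / (n.choose l : ℝ) =
        4 * ((((N : ℝ) + 1) ^ D) ^ 2 / (n.choose l : ℝ)) := by ring
    rw [h3]
    linarith
  · intro L ζ hζ hL
    have h1 := learner_lower (D := D) hln L p hp hζ (by
      refine (E_mono fun S => hL _ ?_).trans (le_of_eq (E_const ζ))
      exact Pool.Agent.Y636.CL.tg_dnf S.2 hl1 hsl)
    obtain ⟨S, hS⟩ := E_exists_ge h1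
    refine ⟨parity S.1, parity_dnf S.2 hl1 hsl, ?_⟩
    rw [← tg_eq]
    refine le_trans ?_ hS
    have h2 : ((N : ℝ) + 1) ^ D / Real.sqrt (n.choose l : ℝ) ≤
        (n : ℝ) ^ (-(Real.logb 2 s / 8)) := by
      rw [div_le_iff₀ (Real.sqrt_pos.2 hC0)]
      have h3 : (n : ℝ) ^ (Real.logb 2 s / 4) ≤ Real.sqrt (n.choose l : ℝ) := by
        apply Real.le_sqrt_of_sq_le
        rw [← Real.rpow_natCast, ← Real.rpow_mul hn0.le]
        refine le_trans (le_of_eq ?_) hC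
        congr 1
        push_cast
        ring
      calc ((N : ℝ) + 1) ^ D ≤ (n : ℝ) ^ (Real.logb 2 s / 8) := hND
        _ = (n : ℝ) ^ (-(Real.logb 2 s / 8)) * (n : ℝ) ^ (Real.logb 2 s / 4) := by
            rw [← Real.rpow_add hn0]
            congr 1
            ring
        _ ≤ _ := mul_le_mul_of_nonneg_left h3 (by positivity)
    have h3 := Real.sqrt_nonneg ζ
    have h4 := mul_le_mul_of_nonneg_left h2 (by linarith : 0 ≤ 1 + Real.sqrt ζ)
    linarith

end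

end Pool.Agent.R562.DN
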