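import Mathlib
import Pool.Agent.R562.DN.Size

/-!
# Predictors of small degree in all bits: the lower bound
(helper562, for MP_cba12a_lc)
-/

set_option autoImplicit false

namespace Pool.Agent.R562.DN

open Finset Pool.Agent.H963J Pool.Agent.W964.Wd

noncomputable section

variable {n N : ℕ}

/-- the indices of the products of bits -/
abbrev Idx (n N : ℕ) := Finset (Fin N) × (Fin N → Finset (Fin n)) × Finset (Fin n)

/-- the product of bits -/
def phi (i : Idx n N) (X : Fin N → Fin n → Bool) (y : Fin N → Bool) (z : Fin n → Bool) : ℝ :=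
  Pool.Agent.H963J.chi y i.1 * (∏ t, cr (i.2.1 t) (X t)) * cr i.2.2 z

lemma cr_sq (R : Finset (Fin n)) (x : Fin n → Bool) : cr R x * cr R x = 1 := by
  rw [← sq]
  exact Pool.Agent.H963J.chi_sq x R

lemma cr_orth (R R' : Finset (Fin n)) :
    E (fun x => cr R x * cr R' x) = if R = R' then 1 else 0 := by
  split_ifs with h
  · subst h
    exact (E_congr fun x => cr_sq R x).trans (E_const 1)
  · have h1 : ∀ x : Fin n → Bool, cr R x * cr R' x = cr (symmDiff R R') x :=
      fun x => chi_mul x R R'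
    rw [E_congr h1]
    apply E_cr
    intro h2
    rw [← Finset.bot_eq_empty, symmDiff_eq_bot] at h2
    exact h h2

/-- the triples -/
abbrev Tri (n N : ℕ) := (Fin N → Fin n → Bool) × (Fin N → Bool) × (Fin n → Bool)

lemma E_tri (f : (Fin N → Fin n → Bool) → ℝ) (g : (Fin N → Bool) → ℝ) (h : (Fin n → Bool) → ℝ) :
    E (fun w : Tri n N => f w.1 * g w.2.1 * h w.2.2) = E f * E g * E h := by
  have h1 : E (fun w : Tri n N => f w.1 * g w.2.1 * h w.2.2) =
      E (fun X => E (fun v : (Fin N → Bool) × (Fin n → Bool) => f X * g v.1 * h v.2)) :=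
    E_pair (fun X (v : (Fin N → Bool) × (Fin n → Bool)) => f X * g v.1 * h v.2)
  rw [h1]
  have h2 : ∀ X, E (fun v : (Fin N → Bool) × (Fin n → Bool) => f X * g v.1 * h v.2) =
      f X * (E g * E h) := by
    intro X
    have h3 : E (fun v : (Fin N → Bool) × (Fin n → Bool) => f X * g v.1 * h v.2) =
        E (fun y => E (fun z => f X * g y * h z)) :=
      E_pair (fun (y : Fin N → Bool) (z : Fin n → Bool) => f X * g y * h z)
    rw [h3, E_mul_E, ← E_mul]
    refine E_congr fun y => ?_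
    rw [← E_mul]
    exact E_congr fun z => by ring
  rw [E_congr h2, E_mul_right]
  ring

lemma phi_orth (i j : Idx n N) :
    E (fun w : Tri n N => phi i w.1 w.2.1 w.2.2 * phi j w.1 w.2.1 w.2.2) =
      if i = j then 1 else 0 := by
  have h1 : ∀ w : Tri n N, phi i w.1 w.2.1 w.2.2 * phi j w.1 w.2.1 w.2.2 =
      (∏ t, (cr (i.2.1 t) (w.1 t) * cr (j.2.1 t) (w.1 t))) *
        (cr i.1 w.2.1 * cr j.1 w.2.1) * (cr i.2.2 w.2.2 * cr j.2.2 w.2.2) := by
    intro w
    have e1 : Pool.Agent.H963J.chi w.2.1 i.1 = cr i.1 w.2.1 := rfl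
    have e2 : Pool.Agent.H963J.chi w.2.1 j.1 = cr j.1 w.2.1 := rfl
    unfold phi
    rw [Finset.prod_mul_distrib, e1, e2]
    ring
  rw [E_congr h1, E_tri (fun X => ∏ t, (cr (i.2.1 t) (X t) * cr (j.2.1 t) (X t)))
    (fun y => cr i.1 y * cr j.1 y) (fun z => cr i.2.2 z * cr j.2.2 z), cr_orth, cr_orth,
    E_prod_gen (fun t x => cr (i.2.1 t) x * cr (j.2.1 t) x),
    Finset.prod_congr rfl fun t _ => cr_orth (i.2.1 t) (j.2.1 t)]
  by_cases h2 : i.2.1 = j.2.1
  · rw [h2]
    simp only [if_true, Finset.prod_const_one, one_mul]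
    by_cases h3 : i.1 = j.1 <;> by_cases h4 : i.2.2 = j.2.2
    · rw [if_pos h3, if_pos h4, if_pos (Prod.ext h3 (Prod.ext h2 h4)), one_mul]
    · rw [if_neg h4, mul_zero, if_neg fun h => h4 (by rw [h])]
    · rw [if_neg h3, zero_mul, if_neg fun h => h3 (by rw [h])]
    · rw [if_neg h3, zero_mul, if_neg fun h => h3 (by rw [h])]
  · obtain ⟨t, ht⟩ := Function.ne_iff.1 h2
    rw [Finset.prod_eq_zero (mem_univ t) (if_neg ht), zero_mul, zero_mul,
      if_neg fun h => h2 (by rw [h])]

lemma E_sq_orth {α ι : Type} [Fintype α] [Nonempty α] [DecidableEq ι] (J : Finset ι)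
    (c : ι → ℝ) (v : ι → α → ℝ)
    (h2 : ∀ i j, E (fun x => v i x * v j x) = if i = j then 1 else 0) :
    E (fun x => (∑ j ∈ J, c j * v j x) ^ 2) = ∑ j ∈ J, c j ^ 2 := by
  have e1 : ∀ x, (∑ j ∈ J, c j * v j x) ^ 2 =
      ∑ i ∈ J, ∑ j ∈ J, c i * c j * (v i x * v j x) := by
    intro x
    rw [sq, Finset.sum_mul_sum]
    exact sum_congr rfl fun i _ => sum_congr rfl fun j _ => by ring
  rw [E_congr e1, E_sum]
  refine sum_congr rfl fun i hi => ?_
  rw [E_sum, Finset.sum_congr rfl fun j _ => by rw [E_mul, h2 i j]]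
  rw [Finset.sum_eq_single_of_mem i hi]
  · rw [if_pos rfl]
    ring
  · intro j _ hji
    rw [if_neg (fun e => hji e.symm), mul_zero]

/-- the index sets of degree at most `D` -/
def low (n N D : ℕ) : Finset (Idx n N) :=
  univ.filter (fun i : Idx n N => i.1.card + ∑ t, (i.2.1 t).card + i.2.2.card ≤ D)

lemma nullSq_E (p : (Fin N → Fin n → Bool) → (Fin N → Bool) → (Fin n → Bool) → ℝ) :
    nullSq p = E (fun w : Tri n N => p w.1 w.2.1 w.2.2 ^ 2) := by
  unfold nullSq E
  simp only [Fintype.sum_prod_type, Fintype.card_prod, Fintype.card_fun, Fintype.card_bool,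
    Fintype.card_fin]
  push_cast
  rw [← pow_mul, mul_comm N n]
  ring

lemma nullSq_eq {D : ℕ} (c : Idx n N → ℝ)
    (p : (Fin N → Fin n → Bool) → (Fin N → Bool) → (Fin n → Bool) → ℝ)
    (hp : ∀ X y z, p X y z = ∑ i ∈ low n N D, c i * phi i X y z) :
    nullSq p = ∑ i ∈ low n N D, c i ^ 2 := by
  rw [nullSq_E, E_congr fun w => by rw [hp]]
  exact E_sq_orth (α := Tri n N) (low n N D) c (fun i w => phi i w.1 w.2.1 w.2.2) phi_orth

lemma corr_E (f : (Fin n → Bool) → Bool)
    (p : (Fin N → Fin n → Bool) → (Fin N → Bool) → (Fin n → Bool) → ℝ) :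
    corr f p = E (fun X => E (fun z => p X (fun t => f (X t)) z *
      Pool.Agent.H963J.sg (f z))) := by
  unfold corr E
  rw [← Finset.sum_div, div_div]
  congr 1
  simp only [Fintype.card_fun, Fintype.card_bool, Fintype.card_fin]
  push_cast
  rw [← pow_mul, mul_comm N n]
  ring

/-- the index which is correlated with the parity of `S` -/
def plant (S : Finset (Fin n)) (T : Finset (Fin N)) : Idx n N :=
  (T, (fun t => if t ∈ T then S else ∅), S)

/-- the correlation of a product of bits -/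
def wt (S : Finset (Fin n)) (i : Idx n N) : ℝ :=
  corr (Pool.Agent.Y636.CL.tg S) (phi i)

lemma wt_zero (S : Finset (Fin n)) (i : Idx n N) (h : i ≠ plant S i.1) : wt S i = 0 := by
  unfold wt
  rw [corr_E]
  obtain ⟨ε, hε⟩ : ∃ ε : ℝ, ε = -(-1) ^ S.card := ⟨_, rfl⟩
  have h1 : ∀ (X : Fin N → Fin n → Bool) (z : Fin n → Bool),
      phi i X (fun t => Pool.Agent.Y636.CL.tg S (X t)) z *
        Pool.Agent.H963J.sg (Pool.Agent.Y636.CL.tg S z) =
      (∏ t, ((if t ∈ i.1 then ε * cr S (X t) else 1) * cr (i.2.1 t) (X t))) *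
        (ε * (cr i.2.2 z * cr S z)) := by
    intro X z
    have h2 : Pool.Agent.H963J.chi (fun t => Pool.Agent.Y636.CL.tg S (X t)) i.1 =
        ∏ t, (if t ∈ i.1 then ε * cr S (X t) else 1) := by
      rw [chi_eq]
      refine prod_congr rfl fun t _ => ?_
      rw [hε, ← lam_eq]
      rfl
    have h3 : Pool.Agent.H963J.sg (Pool.Agent.Y636.CL.tg S z) = ε * cr S z := by
      rw [hε, ← lam_eq]
      rfl
    unfold phi
    rw [h2, h3, Finset.prod_mul_distrib]
    ring
  rw [E_congr fun X => E_congr fun z => h1 X z, E_congr fun X => E_mul _ _, E_mul_right, E_mul,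
    cr_orth]
  by_cases h4 : i.2.2 = S
  · have h5 : ∃ t, i.2.1 t ≠ if t ∈ i.1 then S else ∅ := by
      by_contra hcon
      push Not at hcon
      exact h (Prod.ext rfl (Prod.ext (funext hcon) h4))
    obtain ⟨t, ht⟩ := h5
    rw [E_prod_gen (fun (t : Fin N) (x : Fin n → Bool) =>
      (if t ∈ i.1 then ε * cr S x else 1) * cr (i.2.1 t) x)]
    rw [Finset.prod_eq_zero (mem_univ t), zero_mul]
    by_cases h6 : t ∈ i.1
    · rw [if_pos h6] at ht
      have h7 : ∀ x : Fin n → Bool, (if t ∈ i.1 then ε * cr S x else 1) * cr (i.2.1 t) x =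
          ε * (cr S x * cr (i.2.1 t) x) := by
        intro x
        rw [if_pos h6]
        ring
      rw [E_congr h7, E_mul, cr_orth, if_neg (fun e => ht e.symm), mul_zero]
    · rw [if_neg h6] at ht
      have h7 : ∀ x : Fin n → Bool, (if t ∈ i.1 then ε * cr S x else 1) * cr (i.2.1 t) x =
          cr (i.2.1 t) x := by
        intro x
        rw [if_neg h6, one_mul]
      rw [E_congr h7]
      exact E_cr _ ht
  · rw [if_neg h4, mul_zero, mul_zero]

lemma wt_le (S : Finset (Fin n)) (i : Idx n N) : wt S i ^ 2 ≤ 1 := by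
  have h0 : ∀ (X : Fin N → Fin n → Bool) (y : Fin N → Bool) (z : Fin n → Bool),
      phi i X y z ^ 2 = 1 := by
    intro X y z
    unfold phi
    rw [mul_pow, mul_pow, Pool.Agent.H963J.chi_sq, ← Finset.prod_pow]
    have h1 : ∀ t, cr (i.2.1 t) (X t) ^ 2 = 1 := fun t => Pool.Agent.H963J.chi_sq _ _
    rw [Finset.prod_eq_one fun t _ => h1 t]
    have h2 : cr i.2.2 z ^ 2 = 1 := Pool.Agent.H963J.chi_sq _ _
    rw [h2]
    norm_num
  unfold wt
  rw [corr_E, ← E_pair (fun (X : Fin N → Fin n → Bool) (z : Fin n → Bool) =>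
    phi i X (fun t => Pool.Agent.Y636.CL.tg S (X t)) z *
      Pool.Agent.H963J.sg (Pool.Agent.Y636.CL.tg S z))]
  refine (E_cs (α := (Fin N → Fin n → Bool) × (Fin n → Bool))
    (fun w => phi i w.1 (fun t => Pool.Agent.Y636.CL.tg S (w.1 t)) w.2)
    (fun w => Pool.Agent.H963J.sg (Pool.Agent.Y636.CL.tg S w.2))).trans (le_of_eq ?_)
  rw [E_congr fun w => h0 _ _ _, E_const, E_congr fun w => by rw [sq, sg_mul_self], E_const,
    one_mul]

lemma corr_lin {D : ℕ} (S : Finset (Fin n)) (c : Idx n N → ℝ)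
    (p : (Fin N → Fin n → Bool) → (Fin N → Bool) → (Fin n → Bool) → ℝ)
    (hp : ∀ X y z, p X y z = ∑ i ∈ low n N D, c i * phi i X y z) :
    corr (Pool.Agent.Y636.CL.tg S) p = ∑ i ∈ low n N D, c i * wt S i := by
  have h1 : ∀ i ∈ low n N D, c i * wt S i = E (fun X => E (fun z =>
      c i * (phi i X (fun t => Pool.Agent.Y636.CL.tg S (X t)) z *
        Pool.Agent.H963J.sg (Pool.Agent.Y636.CL.tg S z)))) := by
    intro i _
    unfold wt
    rw [corr_E, ← E_mul]
    exact E_congr fun X => (E_mul _ _).symm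
  rw [Finset.sum_congr rfl h1, ← E_sum, corr_E]
  refine E_congr fun X => ?_
  rw [← E_sum]
  refine E_congr fun z => ?_
  rw [hp, Finset.sum_mul]
  exact sum_congr rfl fun i _ => by ring

lemma low_plant {l D : ℕ} (hl : 1 ≤ l) {S : Finset (Fin n)} (hS : S.card = l)
    {T : Finset (Fin N)} (h : plant S T ∈ low n N D) : T ∈ smallSets N (D / l) := by
  unfold low plant at h
  rw [mem_filter] at h
  have h1 := h.2
  simp only at h1
  have h2 : ∑ t : Fin N, (if t ∈ T then S else ∅).card = T.card * l := by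
    have h3 : ∀ t : Fin N, (if t ∈ T then S else ∅).card = if t ∈ T then l else 0 := by
      intro t
      split_ifs
      · exact hS
      · exact card_empty
    rw [Finset.sum_congr rfl fun t _ => h3 t, Finset.sum_ite_mem, univ_inter, sum_const,
      smul_eq_mul]
  rw [h2, hS] at h1
  unfold smallSets
  rw [mem_filter]
  refine ⟨mem_univ _, ?_⟩
  rw [Nat.le_div_iff_mul_le (by omega)]
  omega

/-- **The lower bound: the sum of the squares of the correlations.** -/
theorem corr_sum {l D : ℕ} (hl : 1 ≤ l)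
    (p : (Fin N → Fin n → Bool) → (Fin N → Bool) → (Fin n → Bool) → ℝ) (hp : BitDegree D p) :
    ∑ S : Fam n l, corr (Pool.Agent.Y636.CL.tg S.1) p ^ 2 ≤
      ((N : ℝ) + 1) ^ (D / l) * nullSq p := by
  obtain ⟨c, hc⟩ := hp
  have hc' : ∀ X y z, p X y z = ∑ i ∈ low n N D, c i * phi i X y z := hc
  rw [nullSq_eq c p hc']
  obtain ⟨G, hG⟩ : ∃ G : Fam n l → Finset (Idx n N),
      G = fun S => (low n N D).filter fun i => i = plant S.1 i.1 := ⟨_, rfl⟩
  have hGmem : ∀ (S : Fam n l) (i : Idx n N), i ∈ G S ↔ i ∈ low n N D ∧ i = plant S.1 i.1 := by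
    intro S i
    rw [hG]
    exact mem_filter
  have hGc : ∀ S, ((G S).card : ℝ) ≤ ((N : ℝ) + 1) ^ (D / l) := by
    intro S
    have h1 : (G S).card ≤ (smallSets N (D / l)).card := by
      apply card_le_card_of_injOn (fun i : Idx n N => i.1)
      · intro i hi
        have h2 := (hGmem S i).1 (mem_coe.1 hi)
        apply mem_coe.2
        apply low_plant hl S.2 (T := i.1)
        rw [← h2.2]
        exact h2.1
      · intro i hi j hj hij
        have h2 := ((hGmem S i).1 (mem_coe.1 hi)).2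
        have h3 := ((hGmem S j).1 (mem_coe.1 hj)).2
        simp only at hij
        rw [h2, h3, hij]
    calc ((G S).card : ℝ) ≤ ((smallSets N (D / l)).card : ℝ) := by exact_mod_cast h1
      _ ≤ _ := by exact_mod_cast card_smallSets N (D / l)
  have h1 : ∀ S : Fam n l, corr (Pool.Agent.Y636.CL.tg S.1) p ^ 2 ≤
      ((N : ℝ) + 1) ^ (D / l) * ∑ i ∈ G S, c i ^ 2 := by
    intro S
    have h2 : corr (Pool.Agent.Y636.CL.tg S.1) p = ∑ i ∈ G S, c i * wt S.1 i := by
      rw [corr_lin S.1 c p hc', hG]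
      refine (Finset.sum_filter_of_ne fun i _ hne => ?_).symm
      by_contra h3
      exact hne (by rw [wt_zero S.1 i h3, mul_zero])
    rw [h2]
    calc (∑ i ∈ G S, c i * wt S.1 i) ^ 2 ≤ (∑ i ∈ G S, c i ^ 2) * ∑ i ∈ G S, wt S.1 i ^ 2 :=
          Finset.sum_mul_sq_le_sq_mul_sq _ _ _
      _ ≤ (∑ i ∈ G S, c i ^ 2) * ((N : ℝ) + 1) ^ (D / l) := by
          apply mul_le_mul_of_nonneg_left _ (sum_nonneg fun i _ => sq_nonneg _)
          calc ∑ i ∈ G S, wt S.1 i ^ 2 ≤ ∑ i ∈ G S, (1 : ℝ) := sum_le_sum fun i _ => wt_le S.1 i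
            _ = ((G S).card : ℝ) := by rw [sum_const, nsmul_eq_mul, mul_one]
            _ ≤ _ := hGc S
      _ = _ := mul_comm _ _
  refine (sum_le_sum fun S _ => h1 S).trans ?_
  rw [← Finset.mul_sum]
  apply mul_le_mul_of_nonneg_left _ (by positivity)
  have h2 : ∑ S : Fam n l, ∑ i ∈ G S, c i ^ 2 = ∑ i ∈ univ.biUnion G, c i ^ 2 := by
    rw [Finset.sum_biUnion]
    intro S _ S' _ hne
    rw [Function.onFun, Finset.disjoint_left]
    intro i hi hi'
    have h3 := ((hGmem S i).1 hi).2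
    have h4 := ((hGmem S' i).1 hi').2
    apply hne
    apply Subtype.ext
    have h5 : i.2.2 = S.1 := by
      rw [h3]
      rfl
    have h6 : i.2.2 = S'.1 := by
      rw [h4]
      rfl
    rw [← h5, h6]
  rw [h2]
  apply Finset.sum_le_sum_of_subset_of_nonneg
  · intro i hi
    rw [mem_biUnion] at hi
    obtain ⟨S, _, hS⟩ := hi
    exact ((hGmem S i).1 hS).1
  · intro i _ _
    exact sq_nonneg _

end

end Pool.Agent.R562.DN
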