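import Mathlib
import Pool.Agent.R562.DN.Bits

/-!
# Predictors of small degree in all bits: final statements
(helper562, for MP_cba12a_lc)
-/

set_option autoImplicit false

namespace Pool.Agent.R562.DN

open Finset Pool.Agent.H963J Pool.Agent.W964.Wd

noncomputable section

variable {n N : ℕ}

lemma nullSq_nonneg (p : (Fin N → Fin n → Bool) → (Fin N → Bool) → (Fin n → Bool) → ℝ) :
    0 ≤ nullSq p := by
  rw [nullSq_E]
  exact E_nonneg fun w => sq_nonneg _

lemma error_ge (L : Learner n N) (f : (Fin n → Bool) → Bool)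
    (p : (Fin N → Fin n → Bool) → (Fin N → Bool) → (Fin n → Bool) → ℝ) {ζ : ℝ}
    (hd : L.dist f p ≤ ζ) : 1 / 2 - Real.sqrt ζ / 2 - |corr f p| / 2 ≤ L.error f := by
  have h1 := L.mean_error f
  have h2 : E (fun X : Fin N → Fin n → Bool => E (fun z => L.mean X (fun t => f (X t)) z *
      Pool.Agent.H963J.sg (f z))) =
      E (fun w : (Fin N → Fin n → Bool) × (Fin n → Bool) =>
        (L.mean w.1 (fun t => f (w.1 t)) w.2 - p w.1 (fun t => f (w.1 t)) w.2) *
          Pool.Agent.H963J.sg (f w.2)) + corr f p := by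
    rw [corr_E, E_pair (fun (X : Fin N → Fin n → Bool) (z : Fin n → Bool) =>
      (L.mean X (fun t => f (X t)) z - p X (fun t => f (X t)) z) * Pool.Agent.H963J.sg (f z)),
      ← E_add]
    refine E_congr fun X => ?_
    rw [← E_add]
    exact E_congr fun z => by ring
  have h3 := E_cs (fun w : (Fin N → Fin n → Bool) × (Fin n → Bool) =>
    L.mean w.1 (fun t => f (w.1 t)) w.2 - p w.1 (fun t => f (w.1 t)) w.2)
    (fun w => Pool.Agent.H963J.sg (f w.2))
  have h4 : E (fun w : (Fin N → Fin n → Bool) × (Fin n → Bool) =>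
      Pool.Agent.H963J.sg (f w.2) ^ 2) = 1 :=
    (E_congr fun w => by rw [sq, sg_mul_self]).trans (E_const 1)
  rw [h4, mul_one, E_pair (fun (X : Fin N → Fin n → Bool) (z : Fin n → Bool) =>
    (L.mean X (fun t => f (X t)) z - p X (fun t => f (X t)) z) ^ 2), ← dist_E] at h3
  have h5 := (le_abs_self _).trans (Real.abs_le_sqrt (h3.trans hd))
  have h6 := le_abs_self (corr f p)
  rw [h2] at h1
  linarith

/-- **Few bits.** -/
theorem bits_main {s D : ℕ} (hs : 2 ≤ s) (hsn : Real.logb 2 s + 1 ≤ Real.sqrt n)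
    (hND : D * Real.log (N + 1) ≤ Real.logb 2 s ^ 2 * Real.log n / 4)
    (p : (Fin N → Fin n → Bool) → (Fin N → Bool) → (Fin n → Bool) → ℝ) (hp : BitDegree D p) :
    ∃ f : (Fin n → Bool) → Bool, IsDnf s f ∧
      |corr f p| ≤ Real.sqrt (nullSq p) * (n : ℝ) ^ (-(Real.logb 2 s / 8)) ∧
      ∀ (L : Learner n N) (ζ : ℝ), L.dist f p ≤ ζ →
        1 / 2 - Real.sqrt ζ / 2 - Real.sqrt (nullSq p) * (n : ℝ) ^ (-(Real.logb 2 s / 8)) / 2 ≤
          L.error f := by
  obtain ⟨l, hl1, hln, hsl, hLl, hC⟩ := choose_ge hs hsn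
  have hne : Nonempty (Fam n l) := by
    rw [← Fintype.card_pos_iff, card_fam]
    exact Nat.choose_pos hln
  have hn0 : (0 : ℝ) < n := by exact_mod_cast (by omega : 0 < n)
  have hC0 : (0 : ℝ) < (n.choose l : ℝ) := by exact_mod_cast Nat.choose_pos hln
  have hL1 : 1 ≤ Real.logb 2 s := by
    rw [Real.le_logb_iff_rpow_le (by norm_num) (by exact_mod_cast (by omega : 0 < s)),
      Real.rpow_one]
    exact_mod_cast hs
  have hM : ((N : ℝ) + 1) ^ (D / l) ≤ (n : ℝ) ^ (Real.logb 2 s / 4) := by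
    have hN0 : (0 : ℝ) < (N : ℝ) + 1 := by positivity
    have hlogN : 0 ≤ Real.log ((N : ℝ) + 1) := Real.log_nonneg (by
      have : (0 : ℝ) ≤ N := Nat.cast_nonneg _
      linarith)
    rw [← Real.rpow_natCast, Real.rpow_def_of_pos hN0, Real.rpow_def_of_pos hn0]
    apply Real.exp_le_exp.2
    have h1 : ((D / l : ℕ) : ℝ) * Real.logb 2 s ≤ D := by
      have h2 : ((D / l : ℕ) : ℝ) * l ≤ D := by exact_mod_cast Nat.div_mul_le_self D l
      refine le_trans ?_ h2
      exact mul_le_mul_of_nonneg_left hLl (Nat.cast_nonneg _)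
    have h3 : ((D / l : ℕ) : ℝ) * Real.logb 2 s * Real.log ((N : ℝ) + 1) ≤
        Real.logb 2 s ^ 2 * Real.log n / 4 :=
      (mul_le_mul_of_nonneg_right h1 hlogN).trans hND
    have h4 : Real.logb 2 s * (Real.log ((N : ℝ) + 1) * ((D / l : ℕ) : ℝ)) ≤
        Real.logb 2 s * (Real.log n * (Real.logb 2 s / 4)) := by
      calc Real.logb 2 s * (Real.log ((N : ℝ) + 1) * ((D / l : ℕ) : ℝ)) =
            ((D / l : ℕ) : ℝ) * Real.logb 2 s * Real.log ((N : ℝ) + 1) := by ring
        _ ≤ _ := h3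
        _ = _ := by ring
    exact le_of_mul_le_mul_left h4 (by linarith)
  have h1 := corr_sum (n := n) (N := N) hl1 p hp
  have h2 : E (fun S : Fam n l => corr (Pool.Agent.Y636.CL.tg S.1) p ^ 2) ≤
      nullSq p * (n : ℝ) ^ (-(Real.logb 2 s / 4)) := by
    unfold E
    rw [card_fam, div_le_iff₀ hC0]
    refine h1.trans ?_
    have h3 : ((N : ℝ) + 1) ^ (D / l) ≤
        (n : ℝ) ^ (-(Real.logb 2 s / 4)) * (n.choose l : ℝ) := by
      refine hM.trans ?_
      calc (n : ℝ) ^ (Real.logb 2 s / 4) =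
            (n : ℝ) ^ (-(Real.logb 2 s / 4)) * (n : ℝ) ^ (Real.logb 2 s / 2) := by
            rw [← Real.rpow_add hn0]
            congr 1
            ring
        _ ≤ _ := mul_le_mul_of_nonneg_left hC (by positivity)
    have h4 := mul_le_mul_of_nonneg_right h3 (nullSq_nonneg p)
    calc ((N : ℝ) + 1) ^ (D / l) * nullSq p ≤ _ := h4
      _ = _ := by ring
  obtain ⟨S, hS⟩ := E_exists_le h2
  have h5 : |corr (Pool.Agent.Y636.CL.tg S.1) p| ≤
      Real.sqrt (nullSq p) * (n : ℝ) ^ (-(Real.logb 2 s / 8)) := by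
    apply abs_le_of_sq_le_sq _ (by positivity)
    rw [mul_pow, Real.sq_sqrt (nullSq_nonneg p)]
    refine hS.trans (le_of_eq ?_)
    rw [← Real.rpow_natCast, ← Real.rpow_mul hn0.le]
    congr 2
    push_cast
    ring
  refine ⟨parity S.1, parity_dnf S.2 hl1 hsl, ?_, ?_⟩
  · rw [← tg_eq]
    exact h5
  · intro L ζ hL
    have h6 := error_ge L (parity S.1) p hL
    rw [← tg_eq] at h6 ⊢
    linarith

/-! ### The upper bound -/

/-- the indices of the predictor `pred` -/
def img (n l N D : ℕ) : Finset (Idx n N) :=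
  (powersetCard l (univ : Finset (Fin n)) ×ˢ powersetCard D (univ : Finset (Fin N))).image
    fun q => plant q.1 q.2

lemma plant_inj : Function.Injective fun q : Finset (Fin n) × Finset (Fin N) => plant q.1 q.2 := by
  rintro ⟨R, T⟩ ⟨R', T'⟩ h
  have h1 : T = T' := congrArg (fun i : Idx n N => i.1) h
  have h2 : R = R' := congrArg (fun i : Idx n N => i.2.2) h
  rw [h1, h2]

lemma img_low {l D : ℕ} : img n l N D ⊆ low n N (D * (l + 1) + l) := by
  intro i hi
  unfold img at hi
  rw [mem_image] at hi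
  obtain ⟨⟨R, T⟩, hq, rfl⟩ := hi
  rw [mem_product, mem_powersetCard, mem_powersetCard] at hq
  have hR : R.card = l := hq.1.2
  have hT : T.card = D := hq.2.2
  unfold low plant
  rw [mem_filter]
  refine ⟨mem_univ _, ?_⟩
  simp only
  have h2 : ∑ t : Fin N, (if t ∈ T then R else ∅).card = T.card * l := by
    have h3 : ∀ t : Fin N, (if t ∈ T then R else ∅).card = if t ∈ T then l else 0 := by
      intro t
      split_ifs
      · exact hR
      · exact card_empty
    rw [Finset.sum_congr rfl fun t _ => h3 t, Finset.sum_ite_mem, univ_inter, sum_const,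
      smul_eq_mul]
  rw [h2, hR, hT]
  nlinarith

lemma pred_expand (l D : ℕ) (X : Fin N → Fin n → Bool) (y : Fin N → Bool) (z : Fin n → Bool) :
    pred n l N D X y z = ∑ i ∈ low n N (D * (l + 1) + l),
      (if i ∈ img n l N D then (-(-1) ^ l) ^ (D + 1) / (N.choose D : ℝ) else 0) * phi i X y z := by
  obtain ⟨ε, hε⟩ : ∃ ε : ℝ, ε = -(-1) ^ l := ⟨_, rfl⟩
  rw [← hε]
  have h1 : ∀ i ∈ low n N (D * (l + 1) + l),
      (if i ∈ img n l N D then ε ^ (D + 1) / (N.choose D : ℝ) else 0) * phi i X y z =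
      if i ∈ img n l N D then ε ^ (D + 1) / (N.choose D : ℝ) * phi i X y z else 0 := by
    intro i _
    split_ifs
    · rfl
    · rw [zero_mul]
  rw [Finset.sum_congr rfl h1, Finset.sum_ite_mem, inter_eq_right.2 img_low]
  unfold img
  rw [Finset.sum_image fun q _ q' _ h => plant_inj h, Finset.sum_product]
  unfold pred
  rw [Finset.sum_div]
  refine sum_congr rfl fun R hR => ?_
  rw [Finset.sum_div]
  refine sum_congr rfl fun T hT => ?_
  rw [mem_powersetCard] at hR hT
  have h2 : ∀ x, lam R x = ε * cr R x := by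
    intro x
    rw [lam_eq, hR.2, hε]
  have h3 : ∏ t, cr (if t ∈ T then R else ∅) (X t) = ∏ t ∈ T, cr R (X t) := by
    have h4 : ∀ t : Fin N, cr (if t ∈ T then R else ∅) (X t) = if t ∈ T then cr R (X t) else 1 := by
      intro t
      split_ifs
      · rfl
      · simp [cr]
    rw [prod_congr rfl fun t _ => h4 t, Finset.prod_ite_mem, univ_inter]
  unfold phi plant
  simp only
  rw [h3, h2 z, Finset.prod_mul_distrib, prod_congr rfl fun t _ => h2 (X t),
    Finset.prod_mul_distrib, Finset.prod_const, hT.2]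
  unfold Pool.Agent.H963J.chi
  ring

lemma pred_bits (l D : ℕ) : BitDegree (D * (l + 1) + l) (pred n l N D) :=
  ⟨_, fun X y z => pred_expand l D X y z⟩

lemma pred_null {l D : ℕ} (hDN : D ≤ N) :
    nullSq (pred n l N D) = (n.choose l : ℝ) / (N.choose D : ℝ) := by
  rw [nullSq_eq _ (pred n l N D) (fun X y z => pred_expand l D X y z)]
  have hC0 : (0 : ℝ) < (N.choose D : ℝ) := by exact_mod_cast Nat.choose_pos hDN
  have h1 : ∀ i ∈ low n N (D * (l + 1) + l),
      (if i ∈ img n l N D then (-(-1) ^ l) ^ (D + 1) / (N.choose D : ℝ) else (0 : ℝ)) ^ 2 =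
      if i ∈ img n l N D then (1 / (N.choose D : ℝ)) ^ 2 else 0 := by
    intro i _
    split_ifs
    · rw [div_pow, div_pow]
      congr 1
      have h5 : (-(-1 : ℝ) ^ l) ^ 2 = 1 := by
        rw [neg_sq, ← pow_mul, mul_comm l 2, pow_mul]
        norm_num
      rw [← pow_mul, mul_comm, pow_mul, h5, one_pow, one_pow]
    · norm_num
  rw [Finset.sum_congr rfl h1, Finset.sum_ite_mem, inter_eq_right.2 img_low, sum_const,
    nsmul_eq_mul]
  have h2 : ((img n l N D).card : ℝ) = (n.choose l : ℝ) * (N.choose D : ℝ) := by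
    unfold img
    rw [card_image_of_injective _ plant_inj, card_product, card_powersetCard, card_powersetCard,
      card_univ, card_univ, Fintype.card_fin, Fintype.card_fin]
    push_cast
    rfl
  rw [h2]
  field_simp

end

end Pool.Agent.R562.DN
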