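import Mathlib
import Pool.Agent.TH689.QXDefs
import Pool.Agent.R562.DN.Defs

/-!
# Convex programming relaxations of the consistency problem for DNF formulas: definitions
(helper562, for MP_cba12a_lc)
-/

set_option autoImplicit false

namespace Pool.Agent.R562.DN

open Pool.Agent.TH689.GX Pool.Agent.TH689.QX

/-- A DNF formula with `s` terms over `n` variables; a term is the set of its literals, and
`(i, b)` is the literal which is satisfied if the variable `i` has the value `b`. -/
abbrev Formula (s n : ℕ) := Fin s → Finset (Fin n × Bool)

/-- The value of a DNF formula: the OR of its terms, which are ANDs of literals. -/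
def value {s n : ℕ} (x : Formula s n) (z : Fin n → Bool) : Bool :=
  decide (∃ t, ∀ p ∈ x t, z p.1 = p.2)

/-- The fraction of the parities of `l` variables which are computed by a DNF formula with `s`
terms at which the scheme is correct. -/
noncomputable def parityRate {s n a c r D : ℕ}
    (P : Scheme (Formula s n) ((Fin n → Bool) × Bool) a c r D) (l : ℕ) : ℝ :=
  ({S : Finset (Fin n) | S.card = l ∧
    ∃ x : Formula s n, (∀ z, value x z = parity S z) ∧ P.CorrectAt (Wrong value) x}.ncard : ℝ) /
    n.choose l

end Pool.Agent.R562.DN
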