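import Mathlib
import Pool.Agent.R562.DN.ConvDefs
import Pool.Agent.R562.DN.Size
import Pool.Agent.TH689.QXJunta
import Pool.Agent.TH689.QXBound

/-!
# Convex programming relaxations for DNF formulas: the lower bound
(helper562, for MP_cba12a_lc)
-/

set_option autoImplicit false

namespace Pool.Agent.R562.DN

open Finset Pool.Agent.TH689.GX Pool.Agent.TH689.QX

noncomputable section

variable {s n l a c r D T : ℕ}

/-- parities are DNF formulas -/
lemma exists_formula (hl : 1 ≤ l) (hs : 2 ^ (l - 1) ≤ s) {S : Finset (Fin n)} (hS : S.card = l) :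
    ∃ x : Formula s n, (∀ t, (x t).card ≤ l) ∧ ∀ z, value x z = parity S z := by
  classical
  -- the subsets of `S` of odd size
  obtain ⟨O, hO⟩ : ∃ O : Finset (Finset (Fin n)), O = S.powerset.filter fun A => Odd A.card :=
    ⟨_, rfl⟩
  have hOm : ∀ A, A ∈ O ↔ A ⊆ S ∧ Odd A.card := by
    intro A
    rw [hO, mem_filter, mem_powerset]
  have hOc : O.card ≤ 2 ^ (l - 1) := by
    obtain ⟨a, ha⟩ : S.Nonempty := by
      rw [← card_pos]
      omega
    have h1 : O.card ≤ (S.erase a).powerset.card := by
      apply card_le_card_of_injOn (fun A => A.erase a)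
      · intro A hA
        rw [hO, mem_coe, mem_filter, mem_powerset] at hA
        rw [mem_coe, mem_powerset]
        exact erase_subset_erase a hA.1
      · intro A hA B hB hAB
        rw [hO, mem_coe, mem_filter, mem_powerset] at hA hB
        simp only at hAB
        by_cases h1 : a ∈ A <;> by_cases h2 : a ∈ B
        · rw [← insert_erase h1, ← insert_erase h2, hAB]
        · exfalso
          rw [erase_eq_of_notMem h2] at hAB
          have h3 := hB.2
          rw [← hAB, card_erase_of_mem h1] at h3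
          have h4 := hA.2
          have h5 : 0 < A.card := card_pos.2 ⟨a, h1⟩
          obtain ⟨u, hu⟩ := h3
          obtain ⟨v, hv⟩ := h4
          omega
        · exfalso
          rw [erase_eq_of_notMem h1] at hAB
          have h3 := hA.2
          rw [hAB, card_erase_of_mem h2] at h3
          have h4 := hB.2
          have h5 : 0 < B.card := card_pos.2 ⟨a, h2⟩
          obtain ⟨u, hu⟩ := h3
          obtain ⟨v, hv⟩ := h4
          omega
        · rw [erase_eq_of_notMem h1, erase_eq_of_notMem h2] at hAB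
          exact hAB
    rw [card_powerset, card_erase_of_mem ha, hS] at h1
    exact h1
  have hne : O.Nonempty := by
    obtain ⟨a, ha⟩ : S.Nonempty := by
      rw [← card_pos]
      omega
    refine ⟨{a}, ?_⟩
    rw [hO, mem_filter, mem_powerset, singleton_subset_iff, card_singleton]
    exact ⟨ha, odd_one⟩
  obtain ⟨f, hf⟩ : ∃ f : Fin s → O, Function.Surjective f := by
    have hc : Fintype.card O ≤ Fintype.card (Fin s) := by
      rw [Fintype.card_fin, Fintype.card_coe]
      exact hOc.trans hs
    have : Nonempty O := hne.to_subtype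
    obtain ⟨e⟩ := Function.Embedding.nonempty_of_card_le hc
    exact ⟨Function.invFun e, Function.invFun_surjective e.injective⟩
  refine ⟨fun t => S.image fun i => (i, decide (i ∈ (f t).1)), ?_, ?_⟩
  · intro t
    exact card_image_le.trans hS.le
  · intro z
    unfold value parity
    apply decide_eq_decide.2
    have h2 : ∀ t, (∀ p ∈ S.image (fun i => (i, decide (i ∈ (f t).1))), z p.1 = p.2) ↔
        S.filter (fun i => z i = true) = (f t).1 := by
      intro t
      have hft : (f t).1 ⊆ S := ((hOm _).1 (f t).2).1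
      constructor
      · intro h
        ext i
        rw [mem_filter]
        constructor
        · rintro ⟨hi, hz⟩
          have h3 := h (i, decide (i ∈ (f t).1)) (mem_image_of_mem _ hi)
          simp only at h3
          rw [hz] at h3
          exact of_decide_eq_true h3.symm
        · intro hi
          have h3 := h (i, decide (i ∈ (f t).1)) (mem_image_of_mem _ (hft hi))
          simp only at h3
          rw [decide_eq_true hi] at h3
          exact ⟨hft hi, h3⟩
      · intro h p hp
        rw [mem_image] at hp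
        obtain ⟨i, hi, rfl⟩ := hp
        simp only
        by_cases h3 : i ∈ (f t).1
        · rw [decide_eq_true h3]
          rw [← h, mem_filter] at h3
          exact h3.2
        · rw [decide_eq_false h3]
          rw [← h, mem_filter] at h3
          cases hz : z i
          · rfl
          · exact absurd ⟨hi, hz⟩ h3
    constructor
    · rintro ⟨t, ht⟩
      rw [h2 t] at ht
      rw [ht]
      exact ((hOm _).1 (f t).2).2
    · intro h
      obtain ⟨t, ht⟩ := hf ⟨S.filter (fun i => z i = true), by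
        rw [hO, mem_filter, mem_powerset]
        exact ⟨filter_subset _ _, h⟩⟩
      refine ⟨t, (h2 t).2 ?_⟩
      rw [ht]

open Classical in
/-- the formula of a parity -/
def rep (P : Scheme (Formula s n) ((Fin n → Bool) × Bool) a c r D) (hl : 1 ≤ l)
    (hs : 2 ^ (l - 1) ≤ s) (S : Fam n l) : Formula s n :=
  if h : ∃ x : Formula s n, (∀ z, value x z = parity S.1 z) ∧ P.CorrectAt (Wrong value) x then
    h.choose else (exists_formula hl hs S.2).choose

lemma rep_value (P : Scheme (Formula s n) ((Fin n → Bool) × Bool) a c r D) (hl : 1 ≤ l)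
    (hs : 2 ^ (l - 1) ≤ s) (S : Fam n l) (z : Fin n → Bool) :
    value (rep P hl hs S) z = parity S.1 z := by
  unfold rep
  split_ifs with h
  · exact h.choose_spec.1 z
  · exact (exists_formula hl hs S.2).choose_spec.2 z

lemma rep_correct (P : Scheme (Formula s n) ((Fin n → Bool) × Bool) a c r D) (hl : 1 ≤ l)
    (hs : 2 ^ (l - 1) ≤ s) (S : Fam n l)
    (h : ∃ x : Formula s n, (∀ z, value x z = parity S.1 z) ∧ P.CorrectAt (Wrong value) x) :
    P.CorrectAt (Wrong value) (rep P hl hs S) := by
  unfold rep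
  rw [dif_pos h]
  exact h.choose_spec.2

/-- the labels of the parities -/
def parF (n l : ℕ) (S : Fam n l) (z : Fin n → Bool) : Bool := parity S.1 z

/-- the scheme for the parities -/
def resP (P : Scheme (Formula s n) ((Fin n → Bool) × Bool) a c r D) (hl : 1 ≤ l)
    (hs : 2 ^ (l - 1) ≤ s) : Scheme (Fam n l) ((Fin n → Bool) × Bool) a c r D where
  d := P.d
  space := P.space
  bin := P.bin
  map := P.map
  set := P.set
  set_convex := P.set_convex
  locMap := P.locMap
  locSet := P.locSet
  locSet_convex := P.locSet_convex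
  point := fun S => P.point (rep P hl hs S)

lemma wrong_iff (P : Scheme (Formula s n) ((Fin n → Bool) × Bool) a c r D) (hl : 1 ≤ l)
    (hs : 2 ^ (l - 1) ≤ s) (e : (Fin n → Bool) × Bool) (S : Fam n l) :
    Wrong (parF n l) e S ↔ Wrong value e (rep P hl hs S) := by
  unfold Wrong parF
  rw [rep_value]

lemma resP_correct (P : Scheme (Formula s n) ((Fin n → Bool) × Bool) a c r D) (hl : 1 ≤ l)
    (hs : 2 ^ (l - 1) ≤ s) (S : Fam n l) :
    (resP P hl hs).CorrectAt (Wrong (parF n l)) S ↔
      P.CorrectAt (Wrong value) (rep P hl hs S) := by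
  unfold Scheme.CorrectAt
  constructor
  · rintro ⟨h1, h2, h3, h4⟩
    exact ⟨h1, h2, h3, fun C i hC => h4 C i fun hw => hC ((wrong_iff P hl hs C S).1 hw)⟩
  · rintro ⟨h1, h2, h3, h4⟩
    exact ⟨h1, h2, h3, fun C i hC => h4 C i fun hw => hC ((wrong_iff P hl hs C S).2 hw)⟩

lemma resP_fits (P : Scheme (Formula s n) ((Fin n → Bool) × Bool) a c r D) (hl : 1 ≤ l)
    (hs : 2 ^ (l - 1) ≤ s) (y : Fin T → (Fin n → Bool) × Bool) (δ : ℝ) (u : Fin P.d → ℝ)
    (h : Fits (resP P hl hs) (Wrong (parF n l)) y δ u) : Fits P (Wrong value) y δ u := by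
  obtain ⟨h1, h2, h3, h4⟩ := h
  refine ⟨h1, h2, h3, fun t i => ?_⟩
  obtain ⟨θ, hθ0, hθδ, a', ha, b, hb, hab⟩ := h4 t i
  refine ⟨θ, hθ0, hθδ, a', ha, b, ?_, hab⟩
  refine convexHull_mono ?_ hb
  rintro _ ⟨S, hS, rfl⟩
  exact ⟨rep P hl hs S, (resP_correct P hl hs S).1 hS, rfl⟩

open Classical in
lemma resP_errors (P : Scheme (Formula s n) ((Fin n → Bool) × Bool) a c r D) (hl : 1 ≤ l)
    (hs : 2 ^ (l - 1) ≤ s) (y : Fin T → (Fin n → Bool) × Bool) (S : Fam n l) :
    errors (Wrong (parF n l)) y S = errors (Wrong value) y (rep P hl hs S) := by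
  unfold errors
  congr 1
  ext t
  rw [mem_filter, mem_filter, wrong_iff P hl hs]

lemma resP_rejects (P : Scheme (Formula s n) ((Fin n → Bool) × Bool) a c r D) (hl : 1 ≤ l)
    (hs : 2 ^ (l - 1) ≤ s) (y : Fin T → (Fin n → Bool) × Bool) (δ : ℝ)
    (h : Rejects P (Wrong value) y δ) : Rejects (resP P hl hs) (Wrong (parF n l)) y δ := by
  rcases h with h | ⟨f, hf1, hf2⟩
  · left
    intro u hu
    exact h u (resP_fits P hl hs y δ u hu)
  · right
    refine ⟨f, fun S hS => ?_, fun u hu => hf2 u (resP_fits P hl hs y δ u hu)⟩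
    rw [resP_errors P hl hs]
    exact hf1 _ ((resP_correct P hl hs S).1 hS)

lemma resP_rate (P : Scheme (Formula s n) ((Fin n → Bool) × Bool) a c r D) (hl : 1 ≤ l)
    (hs : 2 ^ (l - 1) ≤ s) (δ : ℝ) :
    rejectRate P (Wrong value) T δ ≤ rejectRate (resP P hl hs) (Wrong (parF n l)) T δ := by
  unfold rejectRate
  apply div_le_div_of_nonneg_right _ (Nat.cast_nonneg _)
  exact_mod_cast Set.ncard_le_ncard (fun y hy => resP_rejects P hl hs y δ hy) (Set.toFinite _)

lemma resP_parityRate (P : Scheme (Formula s n) ((Fin n → Bool) × Bool) a c r D) (hl : 1 ≤ l)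
    (hs : 2 ^ (l - 1) ≤ s) :
    parityRate P l ≤ (resP P hl hs).correctRate (Wrong (parF n l)) := by
  unfold parityRate Scheme.correctRate
  rw [Nat.card_eq_fintype_card, card_fam]
  apply div_le_div_of_nonneg_right _ (Nat.cast_nonneg _)
  have h1 : {S : Finset (Fin n) | S.card = l ∧ ∃ x : Formula s n,
      (∀ z, value x z = parity S z) ∧ P.CorrectAt (Wrong value) x} ⊆
      (fun S : Fam n l => S.1) '' {S | (resP P hl hs).CorrectAt (Wrong (parF n l)) S} := by
    rintro S ⟨hS, hx⟩
    refine ⟨⟨S, hS⟩, ?_, rfl⟩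
    exact (resP_correct P hl hs ⟨S, hS⟩).2 (rep_correct P hl hs ⟨S, hS⟩ hx)
  have h2 := Set.ncard_le_ncard h1 (Set.toFinite _)
  rw [Set.ncard_image_of_injective _ Subtype.val_injective] at h2
  exact_mod_cast h2

/-- the twist for the parities -/
lemma twist_par (hl : 1 ≤ l) (hln : l ≤ n) :
    Twist (Wrong (parF n l)) (sgn (Wrong (parF n l))) (1 / (n.choose l : ℝ)) := by
  classical
  have hC0 : (0 : ℝ) < (n.choose l : ℝ) := by exact_mod_cast Nat.choose_pos hln
  apply twist_learn _ (by positivity)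
  intro S
  have h0 : ∀ b : Bool, Pool.Agent.TH689.QX.sg b = -Pool.Agent.H963J.sg b := by
    intro b
    cases b <;> simp [Pool.Agent.TH689.QX.sg, Pool.Agent.H963J.sg]
  have h1 : ∀ S' : Fam n l, ∑ z, Pool.Agent.TH689.QX.sg (parF n l S z) *
      Pool.Agent.TH689.QX.sg (parF n l S' z) = if S = S' then (2 : ℝ) ^ n else 0 := by
    intro S'
    have h2 := lam_orth S S'
    unfold Pool.Agent.H963J.E at h2
    have h3 : ∀ z, Pool.Agent.TH689.QX.sg (parF n l S z) *
        Pool.Agent.TH689.QX.sg (parF n l S' z) = lam S.1 z * lam S'.1 z := by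
      intro z
      rw [h0, h0]
      unfold parF lam
      rw [tg_eq, tg_eq]
      ring
    rw [sum_congr rfl fun z _ => h3 z]
    have h4 : (Fintype.card (Fin n → Bool) : ℝ) = 2 ^ n := by simp
    rw [h4, div_eq_iff (by positivity)] at h2
    rw [h2]
    split_ifs <;> ring
  have h2 : ∑ S' : Fam n l, |∑ z, Pool.Agent.TH689.QX.sg (parF n l S z) *
      Pool.Agent.TH689.QX.sg (parF n l S' z)| = 2 ^ n := by
    rw [sum_congr rfl fun S' _ => by rw [h1 S']]
    have h3 : ∀ S' : Fam n l, |if S = S' then (2 : ℝ) ^ n else 0| =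
        if S = S' then (2 : ℝ) ^ n else 0 := by
      intro S'
      split_ifs
      · exact abs_of_nonneg (by positivity)
      · exact abs_zero
    rw [sum_congr rfl fun S' _ => h3 S', sum_ite_eq, if_pos (mem_univ _)]
  rw [h2, card_fam]
  have h4 : (Fintype.card (Fin n → Bool) : ℝ) = 2 ^ n := by simp
  rw [h4]
  apply le_of_eq
  field_simp

/-- **The lower bound.** -/
theorem conv_lower (hl : 1 ≤ l) (hln : l ≤ n) (hs : 2 ^ (l - 1) ≤ s) (hT : 1 ≤ T) {δ : ℝ}
    (hδ0 : 0 < δ) (hδ1 : δ < 1) (Ω : Type) [Fintype Ω] (p : Ω → ℝ)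
    (hp : ∀ ω, 0 ≤ p ω) (hp1 : ∑ ω, p ω = 1) (a c r D : Ω → ℕ) (M : ℝ)
    (hM : ∀ ω, (2 : ℝ) ^ a ω * (c ω + (r ω + 1) * T + 1) * (D ω + 2) ≤ M)
    (P : ∀ ω, Scheme (Formula s n) ((Fin n → Bool) × Bool) (a ω) (c ω) (r ω) (D ω)) :
    ∑ ω, p ω * (parityRate (P ω) l * rejectRate (P ω) (Wrong value) T δ) ≤
      2 * T ^ 3 * M / (n.choose l * δ ^ 2) := by
  classical
  have hne : Nonempty (Fam n l) := by
    rw [← Fintype.card_pos_iff, card_fam]
    exact Nat.choose_pos hln
  have hC0 : (0 : ℝ) < (n.choose l : ℝ) := by exact_mod_cast Nat.choose_pos hln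
  have h1 := learn_random (Wrong (parF n l)) (twist_par hl hln) hT hδ0 hδ1 Ω p hp hp1 a c r D M hM
    (fun ω => resP (P ω) hl hs)
  refine le_trans (sum_le_sum fun ω _ => mul_le_mul_of_nonneg_left ?_ (hp ω))
    (h1.trans (le_of_eq ?_))
  · apply mul_le_mul (resP_parityRate (P ω) hl hs) (resP_rate (P ω) hl hs δ)
    · unfold rejectRate
      positivity
    · unfold Scheme.correctRate
      positivity
  · field_simp

/-- A scheme which is correct at all DNF formulas with `s` terms of width at most `l` is correct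
for all parities. -/
lemma parityRate_one (hl : 1 ≤ l) (hln : l ≤ n) (hs : 2 ^ (l - 1) ≤ s)
    (P : Scheme (Formula s n) ((Fin n → Bool) × Bool) a c r D)
    (h : ∀ x : Formula s n, (∀ t, (x t).card ≤ l) → P.CorrectAt (Wrong value) x) :
    parityRate P l = 1 := by
  classical
  have hC0 : (0 : ℝ) < (n.choose l : ℝ) := by exact_mod_cast Nat.choose_pos hln
  unfold parityRate
  rw [div_eq_one_iff_eq hC0.ne']
  have h1 : {S : Finset (Fin n) | S.card = l ∧ ∃ x : Formula s n,
      (∀ z, value x z = parity S z) ∧ P.CorrectAt (Wrong value) x} =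
      ((powersetCard l (univ : Finset (Fin n)) : Finset (Finset (Fin n))) :
        Set (Finset (Fin n))) := by
    ext S
    rw [mem_coe, mem_powersetCard]
    constructor
    · rintro ⟨hS, _⟩
      exact ⟨subset_univ _, hS⟩
    · rintro ⟨_, hS⟩
      obtain ⟨x, hx1, hx2⟩ := exists_formula hl hs hS
      exact ⟨hS, x, hx2, h x hx1⟩
  rw [h1, Set.ncard_coe_finset, card_powersetCard, card_univ, Fintype.card_fin]

end

end Pool.Agent.R562.DN
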