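import Mathlib
import Pool.Agent.R562.DN.Conv
import Pool.Agent.TH689.QXUpper
import Pool.Agent.Y636.CL.Up

/-!
# Linear programming relaxations for DNF formulas: the upper bound
(helper562, for MP_cba12a_lc)
-/

set_option autoImplicit false

namespace Pool.Agent.R562.DN

open Finset Pool.Agent.TH689.GX Pool.Agent.TH689.QX

noncomputable section

variable {s n w m T : ℕ}

/-- the terms of width at most `w` -/
abbrev Tm (n w : ℕ) := {τ : Finset (Fin n × Bool) // τ.card ≤ w}

lemma card_tm (n w : ℕ) : Fintype.card (Tm n w) ≤ (2 * n + 1) ^ w := by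
  rw [Fintype.card_subtype]
  refine (Pool.Agent.Y636.CL.card_short (α := Fin n × Bool) w).trans (le_of_eq ?_)
  rw [Fintype.card_prod, Fintype.card_fin, Fintype.card_bool, mul_comm]

/-- the term is satisfied -/
def Sat (τ : Finset (Fin n × Bool)) (z : Fin n → Bool) : Prop := ∀ p ∈ τ, z p.1 = p.2

instance (τ : Finset (Fin n × Bool)) (z : Fin n → Bool) : Decidable (Sat τ z) := by
  unfold Sat
  infer_instance

/-- the vector of the satisfied terms -/
def sv (e : Tm n w ≃ Fin m) (z : Fin n → Bool) (j : Fin m) : ℝ :=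
  if Sat (e.symm j).1 z then 1 else 0

lemma sv_bd (e : Tm n w ≃ Fin m) (z : Fin n → Bool) (j : Fin m) :
    0 ≤ sv e z j ∧ sv e z j ≤ 1 := by
  unfold sv
  split_ifs <;> norm_num

lemma le_convex (t : ℝ) : Convex ℝ {z : Fin 1 → ℝ | z 0 ≤ t} := by
  intro a ha b hb p q hp hq hpq
  simp only [Set.mem_ofPred_eq, Pi.add_apply, Pi.smul_apply, smul_eq_mul] at ha hb ⊢
  have h1 := mul_le_mul_of_nonneg_left ha hp
  have h2 := mul_le_mul_of_nonneg_left hb hq
  have h3 : t = p * t + q * t := by rw [← add_mul, hpq, one_mul]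
  linarith

/-- the coefficients of the common constraints -/
def cc (m : ℕ) (j : Fin (m + 1)) : Fin m → ℝ := Fin.lastCases (fun _ => -1) (fun i => Pi.single i 1) j

/-- the bounds of the common constraints -/
def cb (s m : ℕ) (j : Fin (m + 1)) : ℝ := Fin.lastCases (-(s : ℝ)) (fun _ => 0) j

open Classical in
/-- the linear program: a variable for every term of width at most `w` -/
def lp (s : ℕ) (e : Tm n w ≃ Fin m) :
    Scheme (Formula s n) ((Fin n → Bool) × Bool) 0 (m + 1) 1 1 where
  d := m
  space := ⊤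
  bin := fun i => i.elim0
  map := fun j => aff (cc m j)
  set := fun j => {z | cb s m j ≤ z 0}
  set_convex := fun j => half_convex _
  locMap := fun c _ => aff (sv e c.1)
  locSet := fun c _ => if c.2 = true then {z | 1 ≤ z 0} else {z | z 0 ≤ 0}
  locSet_convex := fun c _ => by
    split_ifs
    · exact half_convex 1
    · exact le_convex 0
  point := fun x j => if ∃ t, x t = (e.symm j).1 then 1 else 0

lemma cc_last (u : Fin m → ℝ) : ∑ i, cc m (Fin.last m) i * u i = -∑ i, u i := by
  unfold cc
  rw [Fin.lastCases_last, ← Finset.sum_neg_distrib]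
  exact sum_congr rfl fun i _ => by ring

lemma cc_cast (u : Fin m → ℝ) (j : Fin m) : ∑ i, cc m j.castSucc i * u i = u j := by
  unfold cc
  rw [Fin.lastCases_castSucc, sum_eq_single j]
  · rw [Pi.single_eq_same, one_mul]
  · intro i _ hi
    rw [Pi.single_eq_of_ne hi, zero_mul]
  · intro h
    exact absurd (mem_univ _) h

/-- the common constraints -/
lemma map_iff (e : Tm n w ≃ Fin m) (u : Fin m → ℝ) :
    (∀ j, (lp s e).map j u ∈ (lp s e).set j) ↔ (∀ j, 0 ≤ u j) ∧ ∑ j, u j ≤ s := by
  have h1 : ∀ j, (lp s e).map j u ∈ (lp s e).set j ↔ cb s m j ≤ ∑ i, cc m j i * u i := by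
    intro j
    change cb s m j ≤ aff (cc m j) u 0 ↔ _
    rw [aff_apply]
  constructor
  · intro h
    constructor
    · intro j
      have h2 := (h1 j.castSucc).1 (h _)
      rw [cc_cast] at h2
      unfold cb at h2
      rwa [Fin.lastCases_castSucc] at h2
    · have h2 := (h1 (Fin.last m)).1 (h _)
      rw [cc_last] at h2
      unfold cb at h2
      rw [Fin.lastCases_last] at h2
      linarith
  · rintro ⟨ha, hb⟩ j
    rw [h1]
    refine Fin.lastCases ?_ (fun i => ?_) j
    · rw [cc_last]
      unfold cb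
      rw [Fin.lastCases_last]
      linarith
    · rw [cc_cast]
      unfold cb
      rw [Fin.lastCases_castSucc]
      exact ha i

open Classical in
lemma point_def (e : Tm n w ≃ Fin m) (x : Formula s n) (j : Fin m) :
    (lp s e).point x j = if ∃ t, x t = (e.symm j).1 then 1 else 0 := rfl

lemma point_sum (e : Tm n w ≃ Fin m) (x : Formula s n) : ∑ j, (lp s e).point x j ≤ s := by
  classical
  have h1 : ∑ j, (lp s e).point x j =
      ((univ.filter fun j : Fin m => ∃ t, x t = (e.symm j).1).card : ℝ) := by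
    rw [← Finset.sum_boole]
    exact sum_congr rfl fun j _ => point_def e x j
  rw [h1]
  have h2 : (univ.filter fun j : Fin m => ∃ t, x t = (e.symm j).1).card ≤
      (univ : Finset (Fin s)).card := by
    apply card_le_card_of_surjOn (fun t => if h : (x t).card ≤ w then e ⟨x t, h⟩ else
      if h0 : 0 < m then ⟨0, h0⟩ else e ⟨∅, by simp⟩)
    intro j hj
    rw [mem_coe, mem_filter] at hj
    obtain ⟨t, ht⟩ := hj.2
    refine ⟨t, mem_coe.2 (mem_univ _), ?_⟩
    have hc : (x t).card ≤ w := by
      rw [ht]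
      exact (e.symm j).2
    simp only [dif_pos hc]
    rw [← e.apply_symm_apply j]
    congr 1
    exact Subtype.ext ht
  rw [card_univ, Fintype.card_fin] at h2
  exact_mod_cast h2

/-- correctness -/
lemma lp_correct (e : Tm n w ≃ Fin m) (x : Formula s n) (hx : ∀ t, (x t).card ≤ w) :
    (lp s e).CorrectAt (Wrong value) x := by
  classical
  refine ⟨trivial, fun i => i.elim0, (map_iff e _).2 ⟨fun j => ?_, point_sum e x⟩, ?_⟩
  · rw [point_def]
    split_ifs <;> norm_num
  · rintro ⟨z, b⟩ i hw
    unfold Wrong at hw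
    rw [not_not] at hw
    simp only at hw
    change aff (sv e z) ((lp s e).point x) ∈
      (if b = true then {z : Fin 1 → ℝ | 1 ≤ z 0} else {z | z 0 ≤ 0})
    rcases b with _ | _
    · rw [if_neg (by decide)]
      change aff (sv e z) ((lp s e).point x) 0 ≤ 0
      rw [aff_apply]
      apply le_of_eq
      apply sum_eq_zero
      intro j _
      rw [point_def]
      unfold sv
      by_cases h1 : ∃ t, x t = (e.symm j).1
      · by_cases h2 : Sat (e.symm j).1 z
        · exfalso
          obtain ⟨t, ht⟩ := h1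
          unfold value at hw
          apply of_decide_eq_false hw
          exact ⟨t, by rw [ht]; exact h2⟩
        · rw [if_neg h2, zero_mul]
      · rw [if_neg h1, mul_zero]
    · rw [if_pos rfl]
      change 1 ≤ aff (sv e z) ((lp s e).point x) 0
      rw [aff_apply]
      unfold value at hw
      obtain ⟨t, ht⟩ := of_decide_eq_true hw
      have h1 : sv e z (e ⟨x t, hx t⟩) * (lp s e).point x (e ⟨x t, hx t⟩) = 1 := by
        rw [point_def]
        unfold sv
        rw [e.symm_apply_apply, if_pos (show Sat (x t) z from ht), if_pos ⟨t, rfl⟩, one_mul]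
      rw [← h1]
      apply single_le_sum (f := fun j => sv e z j * (lp s e).point x j) _ (mem_univ _)
      intro j _
      apply mul_nonneg (sv_bd e z j).1
      rw [point_def]
      split_ifs <;> norm_num

/-- the values of the linear functions at the vectors of formulas -/
lemma hull_bd (e : Tm n w ≃ Fin m) (z : Fin n → Bool) (b : Fin 1 → ℝ)
    (hb : b ∈ convexHull ℝ ((fun x => aff (sv e z) ((lp s e).point x)) ''
      {x | (lp s e).CorrectAt (Wrong value) x})) : 0 ≤ b 0 ∧ b 0 ≤ s := by
  classical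
  have hp : ∀ (x : Formula s n) (j : Fin m), 0 ≤ (lp s e).point x j := by
    intro x j
    rw [point_def]
    split_ifs <;> norm_num
  constructor
  · have h4 : convexHull ℝ ((fun x => aff (sv e z) ((lp s e).point x)) ''
        {x | (lp s e).CorrectAt (Wrong value) x}) ⊆ {z : Fin 1 → ℝ | 0 ≤ z 0} := by
      apply convexHull_min _ (half_convex 0)
      rintro _ ⟨x, _, rfl⟩
      change 0 ≤ aff (sv e z) ((lp s e).point x) 0
      rw [aff_apply]
      exact sum_nonneg fun j _ => mul_nonneg (sv_bd e z j).1 (hp x j)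
    exact h4 hb
  · have h4 : convexHull ℝ ((fun x => aff (sv e z) ((lp s e).point x)) ''
        {x | (lp s e).CorrectAt (Wrong value) x}) ⊆ {z : Fin 1 → ℝ | z 0 ≤ (s : ℝ)} := by
      apply convexHull_min _ (le_convex (s : ℝ))
      rintro _ ⟨x, _, rfl⟩
      change aff (sv e z) ((lp s e).point x) 0 ≤ (s : ℝ)
      rw [aff_apply]
      refine le_trans (sum_le_sum fun j _ => ?_) (point_sum e x)
      exact mul_le_of_le_one_left (hp x j) (sv_bd e z j).2
    exact h4 hb

/-- What a solution of the linear program means. -/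
theorem lp_fits (e : Tm n w ≃ Fin m) (hs : 1 ≤ s) (hT : 1 ≤ T) {δ : ℝ} (hδ0 : 0 ≤ δ)
    (hδ : 4 * s * T * δ ≤ 1) (y : Fin T → (Fin n → Bool) × Bool) (u : Fin m → ℝ)
    (h : Fits (lp s e) (Wrong value) y δ u)
    (hpos : T ≤ 4 * (univ.filter fun t => (y t).2 = true).card) :
    ∃ τ : Tm n w, (∀ t, Sat τ.1 (y t).1 → (y t).2 = true) ∧
      T ≤ 8 * s * (univ.filter fun t => Sat τ.1 (y t).1).card := by
  classical
  obtain ⟨-, -, hmap, hnear⟩ := h
  obtain ⟨hu0, hus⟩ := (map_iff e u).1 hmap
  have hsR : (1 : ℝ) ≤ s := by exact_mod_cast hs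
  have hTR : (1 : ℝ) ≤ T := by exact_mod_cast hT
  have hδs : s * δ * T ≤ 1 / 4 := by linarith
  have hδ4 : δ ≤ 1 / 4 := by
    have h1 : δ * 1 ≤ δ * (s * T) := mul_le_mul_of_nonneg_left (by nlinarith) hδ0
    linarith
  -- the values
  obtain ⟨V, hV⟩ : ∃ V : Fin T → ℝ, V = fun t => ∑ j, sv e (y t).1 j * u j := ⟨_, rfl⟩
  have hneg : ∀ t, (y t).2 = false → V t ≤ s * δ := by
    intro t ht
    obtain ⟨θ, hθ0, hθδ, a, ha, b, hb, hab⟩ := hnear t 0
    have hb' := hull_bd e (y t).1 b hb
    have h2 : aff (sv e (y t).1) u 0 = (1 - θ) * a 0 + θ * b 0 := by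
      have := congrFun hab 0
      simp only [Pi.add_apply, Pi.smul_apply, smul_eq_mul] at this
      exact this
    rw [aff_apply] at h2
    have ha' : a 0 ≤ 0 := by
      have h3 : a ∈ (if (y t).2 = true then {z : Fin 1 → ℝ | 1 ≤ z 0} else {z | z 0 ≤ 0}) := ha
      rw [if_neg (by rw [ht]; decide)] at h3
      exact h3
    rw [hV]
    simp only
    rw [h2]
    have h4 : 0 ≤ 1 - θ := by linarith
    have h5 : (1 - θ) * a 0 ≤ 0 := mul_nonpos_of_nonneg_of_nonpos h4 ha'
    have h6 : θ * b 0 ≤ δ * s := mul_le_mul hθδ hb'.2 hb'.1 hδ0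
    linarith
  have hposV : ∀ t, (y t).2 = true → 1 - δ ≤ V t := by
    intro t ht
    obtain ⟨θ, hθ0, hθδ, a, ha, b, hb, hab⟩ := hnear t 0
    have hb' := hull_bd e (y t).1 b hb
    have h2 : aff (sv e (y t).1) u 0 = (1 - θ) * a 0 + θ * b 0 := by
      have := congrFun hab 0
      simp only [Pi.add_apply, Pi.smul_apply, smul_eq_mul] at this
      exact this
    rw [aff_apply] at h2
    have ha' : 1 ≤ a 0 := by
      have h3 : a ∈ (if (y t).2 = true then {z : Fin 1 → ℝ | 1 ≤ z 0} else {z | z 0 ≤ 0}) := ha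
      rw [if_pos ht] at h3
      exact h3
    rw [hV]
    simp only
    rw [h2]
    have h4 : 0 ≤ 1 - θ := by linarith
    have h5 := mul_le_mul_of_nonneg_left ha' h4
    have h6 : 0 ≤ θ * b 0 := mul_nonneg hθ0 hb'.1
    linarith
  -- the bad terms
  obtain ⟨B, hB⟩ : ∃ B : Fin m → Prop, B = fun j => ∃ t, Sat (e.symm j).1 (y t).1 ∧
    (y t).2 = false := ⟨_, rfl⟩
  have hBw : ∑ j ∈ univ.filter B, u j ≤ 1 / 4 := by
    calc ∑ j ∈ univ.filter B, u j ≤
          ∑ j ∈ univ.filter B, ∑ t ∈ univ.filter (fun t => (y t).2 = false),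
            sv e (y t).1 j * u j := by
          refine sum_le_sum fun j hj => ?_
          have h1 : ∃ t, Sat (e.symm j).1 (y t).1 ∧ (y t).2 = false := by
            have := (mem_filter.1 hj).2
            rwa [hB] at this
          obtain ⟨t, ht1, ht2⟩ := h1
          have h3 := single_le_sum (f := fun t => sv e (y t).1 j * u j)
            (s := univ.filter (fun t => (y t).2 = false))
            (fun t _ => mul_nonneg (sv_bd e _ j).1 (hu0 j)) (mem_filter.2 ⟨mem_univ t, ht2⟩)
          have h4 : sv e (y t).1 j = 1 := if_pos ht1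
          simp only [h4, one_mul] at h3
          exact h3
      _ = ∑ t ∈ univ.filter (fun t => (y t).2 = false), ∑ j ∈ univ.filter B,
            sv e (y t).1 j * u j := Finset.sum_comm
      _ ≤ ∑ t ∈ univ.filter (fun t => (y t).2 = false), s * δ := by
          refine sum_le_sum fun t ht => ?_
          refine le_trans ?_ (hneg t (mem_filter.1 ht).2)
          rw [hV]
          exact sum_le_sum_of_subset_of_nonneg (subset_univ _)
            fun j _ _ => mul_nonneg (sv_bd e _ j).1 (hu0 j)
      _ = ((univ.filter (fun t => (y t).2 = false)).card : ℝ) * (s * δ) := by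
          rw [sum_const, nsmul_eq_mul]
      _ ≤ (T : ℝ) * (s * δ) := by
          apply mul_le_mul_of_nonneg_right _ (by positivity)
          have := card_le_univ (univ.filter (fun t => (y t).2 = false))
          rw [Fintype.card_fin] at this
          exact_mod_cast this
      _ ≤ 1 / 4 := by linarith
  -- the good terms
  obtain ⟨G, hG⟩ : ∃ G : Finset (Fin m), G = univ.filter fun j => ¬ B j := ⟨_, rfl⟩
  have hsplit : ∀ F : Fin m → ℝ, ∑ j, F j = ∑ j ∈ univ.filter B, F j + ∑ j ∈ G, F j := by
    intro F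
    rw [hG, sum_filter_add_sum_filter_not]
  have hgood : ∀ t, (y t).2 = true → 1 / 2 ≤ ∑ j ∈ G, sv e (y t).1 j * u j := by
    intro t ht
    have h1 := hposV t ht
    rw [hV] at h1
    simp only at h1
    rw [hsplit] at h1
    have h2 : ∑ j ∈ univ.filter B, sv e (y t).1 j * u j ≤ ∑ j ∈ univ.filter B, u j :=
      sum_le_sum fun j _ => mul_le_of_le_one_left (hu0 j) (sv_bd e _ j).2
    linarith
  by_contra hcon
  push Not at hcon
  have hcov : ∀ j ∈ G, 8 * s * ∑ t ∈ univ.filter (fun t => (y t).2 = true),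
      sv e (y t).1 j < T := by
    intro j hj
    have hj' : ¬ B j := by
      rw [hG] at hj
      exact (mem_filter.1 hj).2
    rw [hB] at hj'
    push Not at hj'
    have h1 := hcon (e.symm j) (fun t ht => by
      have := hj' t ht
      simpa using this)
    have h2 : ∑ t ∈ univ.filter (fun t => (y t).2 = true), sv e (y t).1 j ≤
        ((univ.filter fun t => Sat (e.symm j).1 (y t).1).card : ℝ) := by
      rw [← Finset.sum_boole]
      refine le_trans (sum_le_sum_of_subset_of_nonneg (subset_univ _)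
        fun t _ _ => (sv_bd e _ j).1) (le_of_eq ?_)
      exact sum_congr rfl fun t _ => by unfold sv; rfl
    have h3 : (8 * s * (univ.filter fun t => Sat (e.symm j).1 (y t).1).card : ℝ) < T := by
      exact_mod_cast h1
    refine lt_of_le_of_lt ?_ h3
    exact mul_le_mul_of_nonneg_left h2 (by positivity)
  have hsum : (T : ℝ) / 8 ≤ ∑ j ∈ G, u j * ∑ t ∈ univ.filter (fun t => (y t).2 = true),
      sv e (y t).1 j := by
    have h1 : ∑ j ∈ G, u j * ∑ t ∈ univ.filter (fun t => (y t).2 = true), sv e (y t).1 j =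
        ∑ t ∈ univ.filter (fun t => (y t).2 = true), ∑ j ∈ G, sv e (y t).1 j * u j := by
      rw [Finset.sum_comm]
      refine sum_congr rfl fun j _ => ?_
      rw [Finset.mul_sum]
      exact sum_congr rfl fun t _ => mul_comm _ _
    rw [h1]
    calc (T : ℝ) / 8 ≤ ((univ.filter fun t => (y t).2 = true).card : ℝ) * (1 / 2) := by
          have : (T : ℝ) ≤ 4 * (univ.filter fun t => (y t).2 = true).card := by
            exact_mod_cast hpos
          linarith
      _ = ∑ t ∈ univ.filter (fun t => (y t).2 = true), (1 / 2 : ℝ) := by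
          rw [sum_const, nsmul_eq_mul]
      _ ≤ _ := sum_le_sum fun t ht => hgood t (mem_filter.1 ht).2
  have hGs : ∑ j ∈ G, u j ≤ s :=
    (sum_le_sum_of_subset_of_nonneg (subset_univ _) fun j _ _ => hu0 j).trans hus
  by_cases hz : ∀ j ∈ G, u j = 0
  · rw [sum_congr rfl fun j hj => by rw [hz j hj, zero_mul]] at hsum
    rw [sum_const_zero] at hsum
    linarith
  · push Not at hz
    obtain ⟨j0, hj0, hne⟩ := hz
    have hlt : ∑ j ∈ G, u j * (8 * s * ∑ t ∈ univ.filter (fun t => (y t).2 = true),
        sv e (y t).1 j) < ∑ j ∈ G, u j * T := by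
      apply sum_lt_sum
      · intro j hj
        exact mul_le_mul_of_nonneg_left (hcov j hj).le (hu0 j)
      · exact ⟨j0, hj0, mul_lt_mul_of_pos_left (hcov j0 hj0) (lt_of_le_of_ne (hu0 j0) hne.symm)⟩
    have h2 : ∑ j ∈ G, u j * (8 * s * ∑ t ∈ univ.filter (fun t => (y t).2 = true),
        sv e (y t).1 j) = 8 * s * ∑ j ∈ G, u j * ∑ t ∈ univ.filter (fun t => (y t).2 = true),
        sv e (y t).1 j := by
      rw [Finset.mul_sum]
      exact sum_congr rfl fun j _ => by ring
    rw [h2, ← Finset.sum_mul] at hlt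
    have h3 : (∑ j ∈ G, u j) * T ≤ s * T := mul_le_mul_of_nonneg_right hGs (by positivity)
    have h4 : 8 * s * ((T : ℝ) / 8) ≤ 8 * s * ∑ j ∈ G, u j *
        ∑ t ∈ univ.filter (fun t => (y t).2 = true), sv e (y t).1 j :=
      mul_le_mul_of_nonneg_left hsum (by positivity)
    nlinarith

end

end Pool.Agent.R562.DN
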