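import Mathlib
import Pool.Agent.R562.DN.Lp

/-!
# Linear programming relaxations for DNF formulas: random samples
(helper562, for MP_cba12a_lc)
-/

set_option autoImplicit false

namespace Pool.Agent.R562.DN

open Finset Pool.Agent.TH689.GX Pool.Agent.TH689.QX Pool.Agent.H963J

noncomputable section

variable {s n w m T : ℕ}

/-- the labelled examples -/
abbrev Exm (n : ℕ) := (Fin n → Bool) × Bool

/-- Few random samples have a term which is satisfied only by positive examples, and by many. -/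
lemma count_term (τ : Finset (Fin n × Bool)) (hs : 1 ≤ s) :
    E (fun y : Fin T → Exm n => if (∀ t, Sat τ (y t).1 → (y t).2 = true) ∧
      T ≤ 8 * s * (univ.filter fun t => Sat τ (y t).1).card then (1 : ℝ) else 0) ≤
      (2 : ℝ) ^ (-((T : ℝ) / (8 * s))) := by
  classical
  have hsR : (0 : ℝ) < s := by exact_mod_cast hs
  obtain ⟨g, hg⟩ : ∃ g : Exm n → ℝ, g = fun c => if Sat τ c.1 then (if c.2 = true then 2 else 0)
    else 1 := ⟨_, rfl⟩
  have hg0 : ∀ c, 0 ≤ g c := by
    intro c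
    rw [hg]
    simp only
    split_ifs <;> norm_num
  have hEg : E g = 1 := by
    have h1 : E g = E (fun z : Fin n → Bool => E (fun b : Bool =>
        if Sat τ z then (if b = true then (2 : ℝ) else 0) else 1)) := by
      rw [hg]
      exact E_pair (fun (z : Fin n → Bool) (b : Bool) =>
        if Sat τ z then (if b = true then (2 : ℝ) else 0) else 1)
    rw [h1]
    have h2 : ∀ z : Fin n → Bool, E (fun b : Bool =>
        if Sat τ z then (if b = true then (2 : ℝ) else 0) else 1) = 1 := by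
      intro z
      unfold E
      rw [Fintype.sum_bool, Fintype.card_bool]
      by_cases hz : Sat τ z
      · simp only [hz, if_true, Bool.false_eq_true, if_false]
        norm_num
      · simp only [hz, if_false]
        norm_num
    exact (E_congr h2).trans (E_const 1)
  have hW : E (fun y : Fin T → Exm n => ∏ t ∈ univ, g (y t)) = 1 := by
    rw [E_prod g univ, hEg, one_pow]
  have h1 : ∀ y : Fin T → Exm n, (if (∀ t, Sat τ (y t).1 → (y t).2 = true) ∧
      T ≤ 8 * s * (univ.filter fun t => Sat τ (y t).1).card then (1 : ℝ) else 0) ≤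
      (2 : ℝ) ^ (-((T : ℝ) / (8 * s))) * ∏ t ∈ univ, g (y t) := by
    intro y
    split_ifs with h
    · obtain ⟨ha, hb⟩ := h
      have h2 : ∏ t ∈ univ, g (y t) =
          (2 : ℝ) ^ ((univ.filter fun t => Sat τ (y t).1).card : ℝ) := by
        have h3 : ∀ t ∈ (univ : Finset (Fin T)), g (y t) =
            if Sat τ (y t).1 then (2 : ℝ) else 1 := by
          intro t _
          rw [hg]
          simp only
          split_ifs with h4 h5
          · rfl
          · exact absurd (ha t h4) h5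
          · rfl
        rw [prod_congr rfl h3, Finset.prod_ite, Finset.prod_const, Finset.prod_const_one, mul_one,
          Real.rpow_natCast]
      rw [h2, ← Real.rpow_add (by norm_num)]
      apply Real.one_le_rpow (by norm_num)
      have h5 : (T : ℝ) ≤ 8 * s * ((univ.filter fun t => Sat τ (y t).1).card : ℝ) := by
        exact_mod_cast hb
      have h6 : (T : ℝ) / (8 * s) ≤ ((univ.filter fun t => Sat τ (y t).1).card : ℝ) := by
        rw [div_le_iff₀ (by positivity)]
        linarith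
      linarith
    · exact mul_nonneg (by positivity) (prod_nonneg fun t _ => hg0 _)
  refine (E_mono h1).trans (le_of_eq ?_)
  rw [E_mul, hW, mul_one]

/-- Few random samples have few positive examples. -/
lemma count_pos : E (fun y : Fin T → Exm n =>
      if 4 * (univ.filter fun t => (y t).2 = true).card < T then (1 : ℝ) else 0) ≤
      (2 : ℝ) ^ (-((T : ℝ) / 8)) := by
  classical
  obtain ⟨g, hg⟩ : ∃ g : Exm n → ℝ, g = fun c => if c.2 = true then 1 / 3 else 1 := ⟨_, rfl⟩
  have hg0 : ∀ c, 0 ≤ g c := by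
    intro c
    rw [hg]
    simp only
    split_ifs <;> norm_num
  have hEg : E g = 2 / 3 := by
    have h1 : E g = E (fun _ : Fin n → Bool => E (fun b : Bool =>
        if b = true then (1 / 3 : ℝ) else 1)) := by
      rw [hg]
      exact E_pair (fun (_ : Fin n → Bool) (b : Bool) => if b = true then (1 / 3 : ℝ) else 1)
    rw [h1]
    have h2 : ∀ _ : Fin n → Bool, E (fun b : Bool =>
        if b = true then (1 / 3 : ℝ) else 1) = 2 / 3 := by
      intro z
      unfold E
      rw [Fintype.sum_bool, Fintype.card_bool]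
      norm_num
    exact (E_congr h2).trans (E_const _)
  have hW : E (fun y : Fin T → Exm n => ∏ t ∈ univ, g (y t)) = (2 / 3) ^ T := by
    rw [E_prod g univ, hEg, card_univ, Fintype.card_fin]
  have h1 : ∀ y : Fin T → Exm n,
      (if 4 * (univ.filter fun t => (y t).2 = true).card < T then (1 : ℝ) else 0) ≤
      (3 : ℝ) ^ ((T : ℝ) / 4) * ∏ t ∈ univ, g (y t) := by
    intro y
    split_ifs with h
    · have h2 : ∏ t ∈ univ, g (y t) =
          (3 : ℝ) ^ (-((univ.filter fun t => (y t).2 = true).card : ℝ)) := by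
        have h3 : ∀ t ∈ (univ : Finset (Fin T)), g (y t) =
            if (y t).2 = true then (1 / 3 : ℝ) else 1 := by
          intro t _
          rw [hg]
        rw [prod_congr rfl h3, Finset.prod_ite, Finset.prod_const, Finset.prod_const_one, mul_one,
          Real.rpow_neg (by norm_num), Real.rpow_natCast, one_div, inv_pow]
      rw [h2, ← Real.rpow_add (by norm_num)]
      apply Real.one_le_rpow (by norm_num)
      have h5 : 4 * ((univ.filter fun t => (y t).2 = true).card : ℝ) < T := by exact_mod_cast h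
      linarith
    · exact mul_nonneg (by positivity) (prod_nonneg fun t _ => hg0 _)
  refine (E_mono h1).trans ?_
  rw [E_mul, hW]
  have h3 : (3 : ℝ) ^ (1 / 4 : ℝ) * (2 / 3) ≤ (2 : ℝ) ^ (-(1 / 8) : ℝ) := by
    have h4 : ((3 : ℝ) ^ (1 / 4 : ℝ) * (2 / 3)) ^ 8 ≤ ((2 : ℝ) ^ (-(1 / 8) : ℝ)) ^ 8 := by
      rw [mul_pow, ← Real.rpow_natCast, ← Real.rpow_mul (by norm_num),
        ← Real.rpow_natCast ((2 : ℝ) ^ (-(1 / 8) : ℝ)), ← Real.rpow_mul (by norm_num)]
      have e1 : (1 / 4 : ℝ) * ((8 : ℕ) : ℝ) = ((2 : ℕ) : ℝ) := by norm_num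
      have e2 : (-(1 / 8) : ℝ) * ((8 : ℕ) : ℝ) = -1 := by norm_num
      rw [e1, e2, Real.rpow_natCast, Real.rpow_neg_one]
      norm_num
    exact (pow_le_pow_iff_left₀ (by positivity) (by positivity) (by norm_num)).1 h4
  have h5 : (3 : ℝ) ^ ((T : ℝ) / 4) * (2 / 3) ^ T = ((3 : ℝ) ^ (1 / 4 : ℝ) * (2 / 3)) ^ T := by
    rw [mul_pow, ← Real.rpow_natCast ((3 : ℝ) ^ (1 / 4 : ℝ)), ← Real.rpow_mul (by norm_num)]
    congr 2
    ring
  have h6 : (2 : ℝ) ^ (-((T : ℝ) / 8)) = ((2 : ℝ) ^ (-(1 / 8) : ℝ)) ^ T := by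
    rw [← Real.rpow_natCast, ← Real.rpow_mul (by norm_num)]
    congr 1
    ring
  rw [h5, h6]
  exact pow_le_pow_left₀ (by positivity) h3 T

/-- **The linear program rejects random samples.** -/
theorem lp_rejects (e : Tm n w ≃ Fin m) (hs : 1 ≤ s) (hT : 1 ≤ T) {δ : ℝ} (hδ0 : 0 ≤ δ)
    (hδ : 4 * s * T * δ ≤ 1) :
    1 - ((2 * n + 1) ^ w + 1) * (2 : ℝ) ^ (-((T : ℝ) / (8 * s))) ≤
      rejectRate (lp s e) (Wrong value) T δ := by
  classical
  have hsR : (1 : ℝ) ≤ s := by exact_mod_cast hs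
  obtain ⟨F, hF⟩ : ∃ F : (Fin T → Exm n) → Prop,
    F = fun y => Rejects (lp s e) (Wrong value) y δ := ⟨_, rfl⟩
  have h1 : rejectRate (lp s e) (Wrong value) T δ =
      E (fun y : Fin T → Exm n => if F y then (1 : ℝ) else 0) := by
    unfold rejectRate E
    rw [Nat.card_eq_fintype_card, Finset.sum_boole, Set.ncard_eq_toFinset_card', hF]
    congr 3
    ext y
    simp
  have h2 : ∀ y : Fin T → Exm n, 1 - (if F y then (1 : ℝ) else 0) ≤
      (if 4 * (univ.filter fun t => (y t).2 = true).card < T then (1 : ℝ) else 0) +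
      ∑ τ ∈ (univ : Finset (Tm n w)), if (∀ t, Sat τ.1 (y t).1 → (y t).2 = true) ∧
        T ≤ 8 * s * (univ.filter fun t => Sat τ.1 (y t).1).card then (1 : ℝ) else 0 := by
    intro y
    have hnn : ∀ τ ∈ (univ : Finset (Tm n w)),
        (0 : ℝ) ≤ if (∀ t, Sat τ.1 (y t).1 → (y t).2 = true) ∧
        T ≤ 8 * s * (univ.filter fun t => Sat τ.1 (y t).1).card then (1 : ℝ) else 0 := by
      intro τ _
      split_ifs <;> norm_num
    have hnn2 := sum_nonneg hnn
    by_cases hy : F y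
    · rw [if_pos hy]
      split_ifs <;> linarith
    · rw [if_neg hy]
      by_cases hp : 4 * (univ.filter fun t => (y t).2 = true).card < T
      · rw [if_pos hp]
        linarith
      · rw [if_neg hp]
        rw [hF] at hy
        unfold Rejects at hy
        push Not at hy
        obtain ⟨u, hu⟩ := hy.1
        obtain ⟨τ, hτ1, hτ2⟩ := lp_fits e hs hT hδ0 hδ y u hu (by omega)
        have h3 := single_le_sum hnn (mem_univ τ)
        rw [if_pos ⟨hτ1, hτ2⟩] at h3
        linarith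
  have h3 := E_mono h2
  rw [E_sub, E_const, E_add, E_sum, ← h1] at h3
  have h4 : ∑ τ ∈ (univ : Finset (Tm n w)), E (fun y : Fin T → Exm n =>
      if (∀ t, Sat τ.1 (y t).1 → (y t).2 = true) ∧
        T ≤ 8 * s * (univ.filter fun t => Sat τ.1 (y t).1).card then (1 : ℝ) else 0) ≤
      (2 * n + 1) ^ w * (2 : ℝ) ^ (-((T : ℝ) / (8 * s))) := by
    refine (sum_le_sum fun τ _ => count_term τ.1 hs).trans ?_
    rw [sum_const, card_univ, nsmul_eq_mul]
    apply mul_le_mul_of_nonneg_right _ (by positivity)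
    exact_mod_cast card_tm n w
  have h5 : (2 : ℝ) ^ (-((T : ℝ) / 8)) ≤ (2 : ℝ) ^ (-((T : ℝ) / (8 * s))) := by
    apply Real.rpow_le_rpow_of_exponent_le (by norm_num)
    have h6 : (T : ℝ) / (8 * s) ≤ (T : ℝ) / 8 := by
      apply div_le_div_of_nonneg_left (Nat.cast_nonneg _) (by norm_num)
      linarith
    linarith
  have h6 := count_pos (n := n) (T := T)
  have h7 : E (fun y : Fin T → Exm n => if F y then (1 : ℝ) else 0) =
    rejectRate (lp s e) (Wrong value) T δ := h1.symm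
  have h8 : ((2 * n + 1) ^ w + 1) * (2 : ℝ) ^ (-((T : ℝ) / (8 * s))) =
      (2 * n + 1) ^ w * (2 : ℝ) ^ (-((T : ℝ) / (8 * s))) + (2 : ℝ) ^ (-((T : ℝ) / (8 * s))) := by
    ring
  rw [h8]
  linarith

/-- The upper bound. -/
theorem lp_upper (n s w : ℕ) (hs : 1 ≤ s) :
    ∃ (c : ℕ) (P : Scheme (Formula s n) ((Fin n → Bool) × Bool) 0 c 1 1),
      c ≤ (2 * n + 1) ^ w + 1 ∧
      (∀ x : Formula s n, (∀ t, (x t).card ≤ w) → P.CorrectAt (Wrong value) x) ∧
      ∀ (T : ℕ) (δ : ℝ), 1 ≤ T → 0 ≤ δ → 4 * s * T * δ ≤ 1 →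
        1 - ((2 * n + 1) ^ w + 1) * (2 : ℝ) ^ (-((T : ℝ) / (8 * s))) ≤
          rejectRate P (Wrong value) T δ := by
  have e := Fintype.equivFin (Tm n w)
  refine ⟨Fintype.card (Tm n w) + 1, lp s e, Nat.add_le_add_right (card_tm n w) 1,
    fun x hx => lp_correct e x hx, fun T δ hT hδ0 hδ => lp_rejects e hs hT hδ0 hδ⟩

/-- The lower bound in the worst case. -/
theorem conv_worst {δ : ℝ} (hs : 2 ≤ s) (hsn : Real.logb 2 s + 1 ≤ Real.sqrt n) (hT : 1 ≤ T)
    (hδ0 : 0 < δ) (hδ1 : δ < 1) {a c r D : ℕ}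
    (hM : 2 * T ^ 3 * ((2 : ℝ) ^ a * (c + (r + 1) * T + 1) * (D + 2)) / δ ^ 2 ≤
      (n : ℝ) ^ (Real.logb 2 s / 4))
    (P : Scheme (Formula s n) ((Fin n → Bool) × Bool) a c r D)
    (hP : ∀ x : Formula s n, (∀ t, (x t).card ≤ Nat.log 2 s + 1) → P.CorrectAt (Wrong value) x) :
    rejectRate P (Wrong value) T δ ≤ (n : ℝ) ^ (-(Real.logb 2 s / 4)) := by
  obtain ⟨l, hl1, hln, hsl, _, hC⟩ := choose_ge hs hsn
  have hn0 : (0 : ℝ) < n := by exact_mod_cast (by omega : 0 < n)
  have hC0 : (0 : ℝ) < (n.choose l : ℝ) := by exact_mod_cast Nat.choose_pos hln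
  have hsl' : 2 ^ (l - 1) ≤ s := by omega
  have hl2 : l ≤ Nat.log 2 s + 1 := by
    have := Nat.le_log_of_pow_le (by norm_num : 1 < 2) hsl'
    omega
  have h1 := conv_lower hl1 hln hsl' hT hδ0 hδ1 Unit (fun _ => 1) (fun _ => zero_le_one)
    (by simp) (fun _ => a) (fun _ => c) (fun _ => r) (fun _ => D) _ (fun _ => le_rfl) (fun _ => P)
  rw [Fintype.sum_unique, parityRate_one hl1 hln hsl' P fun x hx => hP x fun t =>
    (hx t).trans hl2, one_mul, one_mul] at h1
  refine h1.trans ?_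
  rw [div_le_iff₀ (by positivity)]
  rw [div_le_iff₀ (by positivity)] at hM
  refine hM.trans ?_
  have h2 : (n : ℝ) ^ (Real.logb 2 s / 4) = (n : ℝ) ^ (-(Real.logb 2 s / 4)) *
      (n : ℝ) ^ (Real.logb 2 s / 2) := by
    rw [← Real.rpow_add hn0]
    congr 1
    ring
  rw [h2]
  have h3 := mul_le_mul_of_nonneg_left hC (show 0 ≤ (n : ℝ) ^ (-(Real.logb 2 s / 4)) * δ ^ 2 by
    positivity)
  calc (n : ℝ) ^ (-(Real.logb 2 s / 4)) * (n : ℝ) ^ (Real.logb 2 s / 2) * δ ^ 2 =
        (n : ℝ) ^ (-(Real.logb 2 s / 4)) * δ ^ 2 * (n : ℝ) ^ (Real.logb 2 s / 2) := by ring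
    _ ≤ _ := h3
    _ = _ := by ring

end

end Pool.Agent.R562.DN
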